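import Pool.Agent.H2.EK.Fs

/-!
# [H2 EK] the insertion operator, the cone step
-/

set_option autoImplicit false

namespace Pool.Agent.H2.EK

open Finset

noncomputable section

variable {V : Type} [PartialOrder V] [DecidableEq V] {k : Type} [CommRing k]

theorem chain_insert {a : V} {s : Finset V} (hs : IsChain (· ≤ ·) (s : Set V)) (h : ∀ x ∈ s, x < a ∨ a < x) :
    IsChain (· ≤ ·) ((insert a s : Finset V) : Set V) := by
  rw [coe_insert]
  refine hs.insert fun b hb _ => ?_
  rcases h b (by exact_mod_cast hb) with h | h
  · exact Or.inr h.le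
  · exact Or.inl h.le

/-- the boundary of an inserted set -/
theorem D_ins_single {a : V} {s : Finset V} (ha : a ∉ s) (h : ∀ x ∈ s, x < a ∨ a < x) :
    D k (ins k a (Finsupp.single s 1)) = Finsupp.single s 1 - ins k a (D k (Finsupp.single s 1)) := by
  classical
  rw [ins_single ha, map_smul, D_single, D_single]
  unfold bdS
  rw [sum_insert ha, erase_insert ha, smul_add, smul_smul, map_sum, sub_eq_add_neg, ← Finset.sum_neg_distrib]
  congr 1
  · rw [sg_insert a a s ha, if_neg (lt_irrefl a), one_mul, sg_mul_self, one_smul]
  · rw [smul_sum]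
    refine Finset.sum_congr rfl fun b hb => ?_
    have hab : b ≠ a := fun h => ha (h ▸ hb)
    rw [map_smul, ins_single (fun h => ha (mem_of_mem_erase h)), smul_smul, smul_smul, sg_insert b a s ha,
      sg_erase a b s hb, erase_insert_of_ne hab.symm, ← neg_smul]
    congr 1
    rcases h b hb with h | h
    · rw [if_pos h, if_neg h.asymm]
      ring
    · rw [if_neg h.asymm, if_pos h]
      ring

theorem D_ins {S : Set V} {n : ℕ} {a : V} (h : ∀ x ∈ S, x < a ∨ a < x) {z : Finset V →₀ k} (hz : z ∈ Chk k S n) :
    D k (ins k a z) = z - ins k a (D k z) := by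
  refine eq_Chk (k := k) (S := S) (n := n) (D k ∘ₗ ins k a) (LinearMap.id - ins k a ∘ₗ D k) (fun s _ h2 _ => ?_) hz
  have ha : a ∉ s := fun ha => by
    rcases h a (h2 ha) with h | h <;> exact lt_irrefl _ h
  exact D_ins_single ha fun x hx => h x (h2 hx)

theorem ins_mem {S : Set V} {n : ℕ} {a : V} (h : ∀ x ∈ S, x < a ∨ a < x) {z : Finset V →₀ k} (hz : z ∈ Chk k S n) :
    ins k a z ∈ Chk k (insert a S) (n + 1) := by
  refine map_Chk (ins k a) _ (fun s h1 h2 h3 => ?_) hz
  have ha : a ∉ s := fun ha => by
    rcases h a (h2 ha) with h | h <;> exact lt_irrefl _ h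
  rw [ins_single ha]
  refine Submodule.smul_mem _ _ (single_mem (chain_insert h1 fun x hx => h x (h2 hx)) ?_ ?_ _)
  · rw [coe_insert]
    exact Set.insert_subset_insert h2
  · rw [card_insert_of_notMem ha, h3]

open Classical in
/-- the contraction of the cone step -/
def hcn (k : Type) [CommRing k] (N : Set V) (c : V → V) : (Finset V →₀ k) →ₗ[k] (Finset V →₀ k) :=
  Finsupp.linearCombination k fun s => ∑ a ∈ s, if a ∈ N then ins k (c a) (Finsupp.single s 1) else 0

theorem hcn_single (N : Set V) (c : V → V) (s : Finset V) : hcn k N c (Finsupp.single s 1) =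
    ∑ a ∈ s, (open Classical in if a ∈ N then ins k (c a) (Finsupp.single s (1 : k)) else 0) := by
  unfold hcn
  rw [Finsupp.linearCombination_single, one_smul]

theorem hcn_zero {N : Set V} {c : V → V} {s : Finset V} (h : ∀ a ∈ s, a ∉ N) :
    hcn k N c (Finsupp.single s 1) = 0 := by
  rw [hcn_single]
  exact Finset.sum_eq_zero fun a ha => if_neg (h a ha)

theorem hcn_one {N : Set V} {c : V → V} {s : Finset V} {a : V} (ha : a ∈ s) (haN : a ∈ N)
    (h : ∀ b ∈ s, b ∈ N → b = a) : hcn k N c (Finsupp.single s 1) = ins k (c a) (Finsupp.single s 1) := by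
  rw [hcn_single, Finset.sum_eq_single a (fun b hb hba => if_neg fun hbN => hba (h b hb hbN)) (fun h => absurd ha h),
    if_pos haN]

/-- The cone step: the elements of `N` are pairwise incomparable, the link of `a ∈ N` in `S` is a cone with apex `c a`. -/
theorem cone_step {S N : Set V} (c : V → V) (hSN : ∀ a ∈ N, a ∉ S) (hN : ∀ a ∈ N, ∀ b ∈ N, a ≤ b → a = b)
    (hc : ∀ a ∈ N, c a ∈ S ∧ (c a < a ∨ a < c a))
    (hl : ∀ a ∈ N, ∀ x ∈ S, x < a ∨ a < x → x = c a ∨ x < c a ∨ c a < x) : AcyP k (S ∪ N) S := by
  classical
  -- the local formula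
  have key : ∀ (n : ℕ) (s : Finset V), IsChain (· ≤ ·) (s : Set V) → (s : Set V) ⊆ S ∪ N → s.card = n + 1 →
      D k (hcn k N c (Finsupp.single s 1)) + hcn k N c (D k (Finsupp.single s 1)) - Finsupp.single s 1 ∈
        Chk k S (n + 1) := by
    intro n s h1 h2 h3
    by_cases hs : ∃ a ∈ s, a ∈ N
    · obtain ⟨a, ha, haN⟩ := hs
      have hu : ∀ b ∈ s, b ∈ N → b = a := by
        intro b hb hbN
        rcases h1.total hb ha with h | h
        · exact hN b hbN a haN h
        · exact (hN a haN b hbN h).symm
      have hS : ∀ b ∈ s, b ≠ a → b ∈ S := fun b hb hba => (h2 hb).resolve_right fun hbN => hba (hu b hb hbN)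
      have hcmp : ∀ b ∈ s, b ≠ c a → b < c a ∨ c a < b := by
        intro b hb hbc
        by_cases hba : b = a
        · subst hba
          exact (hc b haN).2.symm
        · exact (hl a haN b (hS b hb hba) (chain_lt h1 hb ha hba)).resolve_left hbc
      have hca : c a ≠ a := fun h => hSN a haN (h ▸ (hc a haN).1)
      -- the second term
      have h4 : hcn k N c (D k (Finsupp.single s 1)) =
          ins k (c a) (D k (Finsupp.single s 1)) - sg k a s • ins k (c a) (Finsupp.single (s.erase a) 1) := by
        rw [D_single]
        unfold bdS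
        rw [map_sum, map_sum, ← Finset.add_sum_erase s _ ha, ← Finset.add_sum_erase s _ ha]
        rw [map_smul, map_smul, hcn_zero (fun b hb hbN => ne_of_mem_erase hb (hu b (mem_of_mem_erase hb) hbN)),
          smul_zero, zero_add, add_sub_cancel_left]
        refine Finset.sum_congr rfl fun b hb => ?_
        rw [map_smul, map_smul, hcn_one (mem_erase.2 ⟨(ne_of_mem_erase hb).symm, ha⟩) haN
          fun b' hb' hbN => hu b' (mem_of_mem_erase hb') hbN]
      -- the last term is in S
      have h5 : sg k a s • ins k (c a) (Finsupp.single (s.erase a) 1) ∈ Chk k S (n + 1) := by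
        refine Submodule.smul_mem _ _ ?_
        by_cases hcs : c a ∈ s.erase a
        · rw [ins_single_mem hcs]
          exact Submodule.zero_mem _
        · rw [ins_single hcs]
          refine Submodule.smul_mem _ _ (single_mem (chain_insert (h1.mono (by simp)) fun x hx => ?_) ?_ ?_ _)
          · exact hcmp x (mem_of_mem_erase hx) fun h => hcs (h ▸ hx)
          · rw [coe_insert]
            refine Set.insert_subset (hc a haN).1 fun x hx => ?_
            have hx' : x ∈ s.erase a := hx
            exact hS x (mem_of_mem_erase hx') (ne_of_mem_erase hx')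
          · rw [card_insert_of_notMem hcs, card_erase_of_mem ha, h3]
            rfl
      rw [h4, hcn_one ha haN hu]
      by_cases hcs : c a ∈ s
      · -- the apex is in s
        rw [ins_single_mem hcs, map_zero, zero_add]
        have h6 : ins k (c a) (D k (Finsupp.single s 1)) = Finsupp.single s 1 := by
          rw [D_single]
          unfold bdS
          rw [map_sum, Finset.sum_eq_single (c a)]
          · rw [map_smul, ins_single (by simp), smul_smul, insert_erase hcs, sg_erase _ _ _ hcs,
              if_neg (lt_irrefl _), one_mul, sg_mul_self, one_smul]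
          · intro b hb hbc
            rw [map_smul, ins_single_mem (mem_erase.2 ⟨hbc.symm, hcs⟩), smul_zero]
          · exact fun h => absurd hcs h
        rw [h6, sub_sub_cancel_left]
        exact Submodule.neg_mem _ h5
      · rw [D_ins_single hcs fun x hx => hcmp x hx fun h => hcs (h ▸ hx)]
        have : Finsupp.single s (1 : k) - ins k (c a) (D k (Finsupp.single s 1)) +
            (ins k (c a) (D k (Finsupp.single s 1)) - sg k a s • ins k (c a) (Finsupp.single (s.erase a) 1)) -
            Finsupp.single s 1 = - (sg k a s • ins k (c a) (Finsupp.single (s.erase a) 1)) := by abel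
        rw [this]
        exact Submodule.neg_mem _ h5
    · have hs' : ∀ a ∈ s, a ∉ N := fun a ha haN => hs ⟨a, ha, haN⟩
      rw [hcn_zero hs', map_zero, zero_add]
      have h4 : hcn k N c (D k (Finsupp.single s 1)) = 0 := by
        rw [D_single]
        unfold bdS
        rw [map_sum]
        refine Finset.sum_eq_zero fun a _ => ?_
        rw [map_smul, hcn_zero (fun b hb => hs' b (mem_of_mem_erase hb)), smul_zero]
      rw [h4, zero_sub]
      exact Submodule.neg_mem _ (single_mem h1 (fun x hx => (h2 hx).resolve_right (hs' x hx)) h3 _)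
  intro n z hz hDz
  have hy : hcn k N c z ∈ Chk k (S ∪ N) (n + 2) := by
    refine map_Chk _ _ (fun s h1 h2 h3 => ?_) hz
    rw [hcn_single]
    refine Submodule.sum_mem _ fun a ha => ?_
    split_ifs with haN
    · by_cases hcs : c a ∈ s
      · rw [ins_single_mem hcs]
        exact Submodule.zero_mem _
      · rw [ins_single hcs]
        refine Submodule.smul_mem _ _ (single_mem (chain_insert h1 fun x hx => ?_) ?_ ?_ _)
        · by_cases hxa : x = a
          · subst hxa
            exact (hc x haN).2.symm
          · have hxS : x ∈ S := (h2 hx).resolve_right fun hxN => hxa (by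
              rcases h1.total hx ha with h | h
              · exact hN x hxN a haN h
              · exact (hN a haN x hxN h).symm)
            exact (hl a haN x hxS (chain_lt h1 hx ha hxa)).resolve_left fun h => hcs (h ▸ hx)
        · rw [coe_insert]
          exact Set.insert_subset (Or.inl (hc a haN).1) h2
        · rw [card_insert_of_notMem hcs, h3]
    · exact Submodule.zero_mem _
  refine ⟨hcn k N c z, hy, ?_⟩
  have h6 : hcn k N c (D k z) = 0 := by
    have := map_Chk (hcn k N c) ⊥ (fun s _ h2 _ => by
      rw [Submodule.mem_bot]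
      exact hcn_zero fun a ha haN => hSN a haN (h2 ha)) hDz
    simpa using this
  have h7 := map_Chk (k := k) (S := S ∪ N) (n := n + 1)
    (D k ∘ₗ hcn k N c + hcn k N c ∘ₗ D k - LinearMap.id) (Chk k S (n + 1)) (fun s h1 h2 h3 => key n s h1 h2 h3) hz
  rw [LinearMap.sub_apply, LinearMap.add_apply, LinearMap.comp_apply, LinearMap.comp_apply, h6, add_zero,
    LinearMap.id_apply] at h7
  rw [← neg_sub]
  exact Submodule.neg_mem _ h7

end

end Pool.Agent.H2.EK
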