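import Pool.Agent.H2.EK.Fs

/-!
# [H2 EK] order embeddings
-/

set_option autoImplicit false

namespace Pool.Agent.H2.EK

open Finset

noncomputable section

variable {Q V : Type} [PartialOrder Q] [PartialOrder V] {k : Type} [CommRing k]

variable (k) in
/-- the map induced by an order embedding -/
def emF (f : Q ↪o V) : (Finset Q →₀ k) →ₗ[k] (Finset V →₀ k) := Finsupp.lmapDomain k k (Finset.map f.toEmbedding)

theorem emF_single (f : Q ↪o V) (s : Finset Q) (a : k) :
    emF k f (Finsupp.single s a) = Finsupp.single (s.map f.toEmbedding) a := by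
  unfold emF
  rw [Finsupp.lmapDomain_apply, Finsupp.mapDomain_single]

theorem emF_inj (f : Q ↪o V) : Function.Injective (emF k f) := by
  unfold emF
  exact Finsupp.mapDomain_injective (Finset.map_injective f.toEmbedding)

theorem emF_D [DecidableEq Q] [DecidableEq V] (f : Q ↪o V) (z : Finset Q →₀ k) : D k (emF k f z) = emF k f (D k z) := by
  classical
  have h : D k ∘ₗ emF k f = emF k f ∘ₗ D k := by
    refine Finsupp.lhom_ext' fun s => LinearMap.ext_ring ?_
    rw [LinearMap.comp_apply, LinearMap.comp_apply, LinearMap.comp_apply, LinearMap.comp_apply,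
      Finsupp.lsingle_apply, emF_single, D_single, D_single]
    unfold bdS
    rw [sum_map, map_sum]
    refine Finset.sum_congr rfl fun a _ => ?_
    rw [map_smul, emF_single]
    have h1 : (s.map f.toEmbedding).erase (f.toEmbedding a) = (s.erase a).map f.toEmbedding := by
      rw [Finset.map_erase]
    have h2 : sg k (f.toEmbedding a) (s.map f.toEmbedding) = sg k a s := by
      unfold sg
      rw [filter_map, card_map]
      congr 2
      ext x
      rw [mem_filter, mem_filter]
      exact and_congr_right fun _ => f.lt_iff_lt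
    rw [h1, h2]
  exact congrArg (fun g => g z) h

theorem emF_mem (f : Q ↪o V) {S : Set Q} {n : ℕ} {z : Finset Q →₀ k} (hz : z ∈ Chk k S n) :
    emF k f z ∈ Chk k (f '' S) n := by
  classical
  refine map_Chk _ _ (fun s h1 h2 h3 => ?_) hz
  rw [emF_single]
  refine single_mem ?_ ?_ ?_ _
  · rw [coe_map]
    rintro _ ⟨a, ha, rfl⟩ _ ⟨b, hb, rfl⟩ _
    rcases h1.total ha hb with h | h
    · exact Or.inl (f.monotone h)
    · exact Or.inr (f.monotone h)
  · rw [coe_map]
    exact Set.image_mono h2
  · rw [card_map, h3]

theorem emF_surj (f : Q ↪o V) {n : ℕ} {y : Finset V →₀ k} (hy : y ∈ Chk k (Set.range f) n) :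
    ∃ z ∈ Chk k (Set.univ : Set Q) n, emF k f z = y := by
  classical
  have key : y ∈ Submodule.map (emF k f) (Chk k (Set.univ : Set Q) n) := by
    refine map_Chk (S := Set.range f) (n := n) (LinearMap.id : (Finset V →₀ k) →ₗ[k] (Finset V →₀ k)) _
      (fun s h1 h2 h3 => ?_) hy
    have h4 : (s.preimage f f.injective.injOn).map f.toEmbedding = s := by
      ext v
      rw [mem_map]
      constructor
      · rintro ⟨a, ha, rfl⟩
        exact mem_preimage.1 ha
      · intro hv
        obtain ⟨a, rfl⟩ := h2 hv
        exact ⟨a, mem_preimage.2 hv, rfl⟩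
    refine ⟨Finsupp.single (s.preimage f f.injective.injOn) 1, single_mem ?_ (Set.subset_univ _) ?_ _, ?_⟩
    · intro a ha b hb _
      have ha' : f a ∈ s := by simpa using ha
      have hb' : f b ∈ s := by simpa using hb
      rcases h1.total ha' hb' with h | h
      · exact Or.inl (f.le_iff_le.1 h)
      · exact Or.inr (f.le_iff_le.1 h)
    · rw [← card_map f.toEmbedding, h4, h3]
    · rw [emF_single, h4]
      rfl
  obtain ⟨z, hz, h⟩ := key
  exact ⟨z, hz, h⟩

end

end Pool.Agent.H2.EK
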