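import Pool.Agent.H2.EK.Rose

/-!
# [H2 EK] the homology of the rose
-/

set_option autoImplicit false

namespace Pool.Agent.H2.EK

open Finset

noncomputable section

open Rs

variable {B : Type} {ℓ : ℕ} {k : Type} [CommRing k]

/-- the lower end of an incidence -/
def lo (b : B) (j : Fin ℓ) (ε τ : Bool) : Rs B ℓ := if τ then md b j else en b (j.1 + ε.toNat)

/-- the incidences: chains with two elements -/
def inc (b : B) (j : Fin ℓ) (ε τ : Bool) : Finset (Rs B ℓ) := {lo b j ε τ, ed b j ε}

/-- signs -/
def se (k : Type) [CommRing k] (ε τ : Bool) : k := (if ε then -1 else 1) * (if τ then -1 else 1)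

variable (k) in
/-- the cycle of a petal -/
def cyc (b : B) : Finset (Rs B ℓ) →₀ k := ∑ j, ∑ ε, ∑ τ, se k ε τ • Finsupp.single (inc b j ε τ) (1 : k)

theorem lo_lt (b : B) (j : Fin ℓ) (ε τ : Bool) : lo b j ε τ < ed b j ε := by
  unfold lo
  split_ifs
  · exact md_lt b j ε
  · exact en_lt b j ε

theorem lo_isV (b : B) (j : Fin ℓ) (ε τ : Bool) : (lo b j ε τ).IsV := isV_of_lt (lo_lt b j ε τ)

theorem ed_mem_inc {b b' : B} {j j' : Fin ℓ} {ε ε' τ : Bool} (h : ed b' j' ε' ∈ inc b j ε τ) :
    b' = b ∧ j' = j ∧ ε' = ε := by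
  unfold inc at h
  rw [mem_insert, mem_singleton] at h
  rcases h with h | h
  · have := lo_isV b j ε τ
    rw [← h] at this
    exact this.elim
  · simpa using h

theorem en_ne_md (b : B) (n : ℕ) (b' : B) (j : Fin ℓ) : (en b n : Rs B ℓ) ≠ md b' j := by
  unfold en
  split_ifs <;> exact fun h => by cases h

theorem inc_inj {b b' : B} {j j' : Fin ℓ} {ε ε' τ τ' : Bool} (h : inc b j ε τ = inc b' j' ε' τ') :
    b = b' ∧ j = j' ∧ ε = ε' ∧ τ = τ' := by
  have h1 : ed b j ε ∈ inc b' j' ε' τ' := by
    rw [← h]
    exact mem_insert_of_mem (mem_singleton_self _)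
  obtain ⟨rfl, rfl, rfl⟩ := ed_mem_inc h1
  refine ⟨rfl, rfl, rfl, ?_⟩
  have h2 : lo b j ε τ ∈ inc b j ε τ' := by
    rw [← h]
    exact mem_insert_self _ _
  unfold inc at h2
  rw [mem_insert, mem_singleton] at h2
  have h3 : lo b j ε τ = lo b j ε τ' := h2.resolve_right (lo_lt b j ε τ).ne
  unfold lo at h3
  cases τ <;> cases τ'
  · rfl
  · exact absurd h3 (en_ne_md _ _ _ _)
  · exact absurd h3.symm (en_ne_md _ _ _ _)
  · rfl

theorem inc_chain (b : B) (j : Fin ℓ) (ε τ : Bool) :
    IsChain (· ≤ ·) ((inc b j ε τ : Finset (Rs B ℓ)) : Set (Rs B ℓ)) ∧ (inc b j ε τ).card = 2 := by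
  unfold inc
  refine ⟨?_, card_pair (lo_lt b j ε τ).ne⟩
  rw [coe_pair]
  exact IsChain.pair (lo_lt b j ε τ).le

/-- the chains with two elements are the incidences -/
theorem exists_inc {s : Finset (Rs B ℓ)} (h : IsChain (· ≤ ·) (s : Set (Rs B ℓ))) (h2 : s.card = 2) :
    ∃ b j ε τ, s = inc b j ε τ := by
  obtain ⟨x, y, hxy, rfl⟩ := card_eq_two.1 h2
  have key : ∀ x y : Rs B ℓ, x < y → ∃ b j ε τ, ({x, y} : Finset (Rs B ℓ)) = inc b j ε τ := by
    intro x y hxy
    obtain ⟨b, j, ε, rfl, rfl | rfl⟩ := lt_def.1 hxy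
    · exact ⟨b, j, ε, false, rfl⟩
    · exact ⟨b, j, ε, true, rfl⟩
  rcases chain_lt h (a := x) (b := y) (by simp) (by simp) hxy with h | h
  · exact key x y h
  · rw [pair_comm]
    exact key y x h

/-- no chain has three elements -/
theorem card_le_two {s : Finset (Rs B ℓ)} (h : IsChain (· ≤ ·) (s : Set (Rs B ℓ))) : s.card ≤ 2 := by
  classical
  have h1 : s.card ≤ (univ : Finset Bool).card := by
    refine Finset.card_le_card_of_injOn (fun x => decide x.IsV) (fun _ _ => mem_univ _) ?_
    intro a ha b hb hab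
    by_contra hne
    rcases chain_lt h ha hb hne with h3 | h3
    · have h4 := isV_of_lt h3
      have h5 := not_isV_of_lt h3
      simp [h4, h5] at hab
    · have h4 := isV_of_lt h3
      have h5 := not_isV_of_lt h3
      simp [h4, h5] at hab
  simpa using h1

theorem Chk_three {n : ℕ} (hn : 3 ≤ n) {S : Set (Rs B ℓ)} {z : Finset (Rs B ℓ) →₀ k} (hz : z ∈ Chk k S n) : z = 0 := by
  rw [← Finsupp.support_eq_empty, eq_empty_iff_forall_notMem]
  intro s hs
  obtain ⟨h1, -, h3⟩ := mem_Chk.1 hz s hs
  have := card_le_two h1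
  omega

theorem D_pair {V : Type} [PartialOrder V] [DecidableEq V] {x y : V} (h : x < y) :
    D k (Finsupp.single {x, y} (1 : k)) = Finsupp.single {y} 1 - Finsupp.single {x} 1 := by
  classical
  have h1 : (x : V) ∉ ({y} : Finset V) := by
    rw [mem_singleton]
    exact h.ne
  rw [D_single]
  unfold bdS
  rw [sum_insert h1, sum_singleton, erase_insert h1]
  have h2 : ({x, y} : Finset V).erase y = {x} := by
    rw [pair_comm, erase_insert (by rw [mem_singleton]; exact h.ne')]
  have h3 : sg k x ({x, y} : Finset V) = 1 := by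
    unfold sg
    rw [filter_eq_empty_iff.2, card_empty, pow_zero]
    intro a ha
    rw [mem_insert, mem_singleton] at ha
    rcases ha with rfl | rfl
    · exact lt_irrefl _
    · exact h.asymm
  have h4 : sg k y ({x, y} : Finset V) = -1 := by
    unfold sg
    have : ({x, y} : Finset V).filter (fun a => a < y) = {x} := by
      ext a
      rw [mem_filter, mem_insert, mem_singleton, mem_singleton]
      constructor
      · rintro ⟨rfl | rfl, h5⟩
        · rfl
        · exact absurd h5 (lt_irrefl _)
      · rintro rfl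
        exact ⟨Or.inl rfl, h⟩
    have h6 : (({x, y} : Finset V).filter (fun a => a < y)).card = 1 := by
      rw [this, card_singleton]
    calc _ = (-1 : k) ^ 1 := by
          congr 1
      _ = -1 := pow_one _
  rw [h2, h3, h4, one_smul, neg_one_smul, ← sub_eq_add_neg]

/-- connectivity -/
theorem rose_conn {z : Finset (Rs B ℓ) →₀ k} (hz : z ∈ Chk k (Set.univ : Set (Rs B ℓ)) 1) (h0 : D k z = 0) :
    ∃ y ∈ Chk k (Set.univ : Set (Rs B ℓ)) 2, D k y = z := by
  classical
  set U : Submodule k (Finset (Rs B ℓ) →₀ k) := Submodule.map (D k) (Chk k (Set.univ : Set (Rs B ℓ)) 2) with hU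
  have hlt : ∀ x y : Rs B ℓ, x < y → (Finsupp.single {y} 1 - Finsupp.single {x} 1 : Finset (Rs B ℓ) →₀ k) ∈ U := by
    intro x y h
    rw [← D_pair h]
    refine ⟨_, single_mem ?_ (Set.subset_univ _) (card_pair h.ne) _, rfl⟩
    rw [coe_pair]
    exact IsChain.pair h.le
  let R : Rs B ℓ → Prop := fun x => (Finsupp.single {x} 1 - Finsupp.single {pt} 1 : Finset (Rs B ℓ) →₀ k) ∈ U
  have hR1 : ∀ x y : Rs B ℓ, x < y → R x → R y := by
    intro x y h hx
    have := U.add_mem (hlt x y h) hx
    rwa [sub_add_sub_cancel] at this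
  have hR2 : ∀ x y : Rs B ℓ, x < y → R y → R x := by
    intro x y h hx
    have := U.sub_mem hx (hlt x y h)
    rwa [sub_sub_sub_cancel_left] at this
  have hpt : R pt := by
    change (Finsupp.single {pt} 1 - Finsupp.single {pt} 1 : Finset (Rs B ℓ) →₀ k) ∈ U
    rw [sub_self]
    exact U.zero_mem
  have hen : ∀ (b : B) (n : ℕ), n ≤ ℓ → R (en b n) := by
    intro b n
    induction n with
    | zero =>
      intro _
      rw [en_zero]
      exact hpt
    | succ n ih =>
      intro hn
      have h1 := ih (by omega)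
      have h2 : R (ed b ⟨n, by omega⟩ false) := hR1 _ _ (en_lt b ⟨n, by omega⟩ false) h1
      have h3 : R (md b ⟨n, by omega⟩) := hR2 _ _ (md_lt b ⟨n, by omega⟩ false) h2
      have h4 : R (ed b ⟨n, by omega⟩ true) := hR1 _ _ (md_lt b ⟨n, by omega⟩ true) h3
      exact hR2 _ _ (en_lt b ⟨n, by omega⟩ true) h4
  have hall : ∀ x : Rs B ℓ, R x := by
    intro x
    cases x with
    | pt => exact hpt
    | jc b n =>
      have := hen b n.1 n.2.2.le
      unfold en at this
      rwa [dif_pos n.2] at this
    | md b j =>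
      have h1 := hen b j.1 j.2.le
      exact hR2 _ _ (md_lt b j false) (hR1 _ _ (en_lt b j false) h1)
    | ed b j ε =>
      have h1 := hen b (j.1 + ε.toNat) (by have := j.2; cases ε <;> simp only [Bool.toNat] <;> simp <;> omega)
      exact hR1 _ _ (en_lt b j ε) h1
  -- the projection
  let I : (Finset (Rs B ℓ) →₀ k) →ₗ[k] (Finset (Rs B ℓ) →₀ k) :=
    Finsupp.linearCombination k fun s => Finsupp.single (insert pt s) (1 : k)
  have h1 : ((LinearMap.id : (Finset (Rs B ℓ) →₀ k) →ₗ[k] (Finset (Rs B ℓ) →₀ k)) - I ∘ₗ D k) z ∈ U := by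
    refine map_Chk _ _ (fun s _ _ h3 => ?_) hz
    obtain ⟨x, rfl⟩ := card_eq_one.1 h3
    have h4 : D k (Finsupp.single {x} (1 : k)) = Finsupp.single ∅ 1 := by
      rw [D_single]
      unfold bdS
      have : sg k x {x} = 1 := by
        unfold sg
        rw [filter_singleton, if_neg (lt_irrefl x), card_empty, pow_zero]
      rw [sum_singleton, this, one_smul, Finset.erase_singleton]
    rw [LinearMap.sub_apply, LinearMap.comp_apply, h4, LinearMap.id_apply]
    have h5 : I (Finsupp.single ∅ 1) = Finsupp.single {pt} 1 := by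
      change Finsupp.linearCombination k _ _ = _
      rw [Finsupp.linearCombination_single, one_smul]
      rfl
    rw [h5]
    exact hall x
  rw [LinearMap.sub_apply, LinearMap.comp_apply, h0, map_zero, sub_zero, LinearMap.id_apply] at h1
  obtain ⟨y, hy, h⟩ := h1
  exact ⟨y, hy, h⟩

theorem cyc_mem (b : B) : cyc k b ∈ Chk k (Set.univ : Set (Rs B ℓ)) 2 :=
  Submodule.sum_mem _ fun j _ => Submodule.sum_mem _ fun ε _ => Submodule.sum_mem _ fun τ _ =>
    Submodule.smul_mem _ _ (single_mem (inc_chain b j ε τ).1 (Set.subset_univ _) (inc_chain b j ε τ).2 _)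

theorem cyc_D (b : B) : D k (cyc k b : Finset (Rs B ℓ) →₀ k) = 0 := by
  have h1 : ∀ j : Fin ℓ, D k (∑ ε, ∑ τ, se k ε τ • Finsupp.single (inc b j ε τ) (1 : k)) =
      Finsupp.single {en b (j.1 + 1)} 1 - Finsupp.single {en b j.1} 1 := by
    intro j
    simp only [Fintype.sum_bool, map_add, map_smul]
    unfold inc
    rw [D_pair (lo_lt b j true true), D_pair (lo_lt b j true false), D_pair (lo_lt b j false true),
      D_pair (lo_lt b j false false)]
    unfold se lo
    simp only [if_true, Bool.false_eq_true, if_false, Bool.toNat_true, Bool.toNat_false, add_zero, mul_one,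
      mul_neg, neg_neg, one_smul, neg_smul]
    abel
  unfold cyc
  rw [map_sum, Finset.sum_congr rfl fun j _ => h1 j,
    Fin.sum_univ_eq_sum_range (fun n => (Finsupp.single {en b (n + 1)} 1 - Finsupp.single {en b n} 1 : Finset (Rs B ℓ) →₀ k)) ℓ,
    Finset.sum_range_sub (fun n => (Finsupp.single {en b n} 1 : Finset (Rs B ℓ) →₀ k)), en_last, en_zero, sub_self]

/-- the coefficients of a combination of the cycles -/
theorem cyc_apply [Fintype B] (c : B → k) (b : B) (j : Fin ℓ) (ε τ : Bool) :
    (∑ b, c b • cyc k b) (inc b j ε τ) = c b * se k ε τ := by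
  classical
  have h1 : ∀ b', (cyc k b' : Finset (Rs B ℓ) →₀ k) (inc b j ε τ) = if b' = b then se k ε τ else 0 := by
    intro b'
    unfold cyc
    simp only [Finsupp.finset_sum_apply, Finsupp.smul_apply, Finsupp.single_apply, smul_eq_mul]
    by_cases hb : b' = b
    · subst hb
      rw [if_pos rfl, Finset.sum_eq_single j, Finset.sum_eq_single ε, Finset.sum_eq_single τ, if_pos rfl, mul_one]
      · intro τ' _ h
        rw [if_neg fun h2 => h (inc_inj h2).2.2.2, mul_zero]
      · exact fun h => absurd (mem_univ _) h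
      · intro ε' _ h
        exact Finset.sum_eq_zero fun τ' _ => by rw [if_neg fun h2 => h (inc_inj h2).2.2.1, mul_zero]
      · exact fun h => absurd (mem_univ _) h
      · intro j' _ h
        exact Finset.sum_eq_zero fun ε' _ => Finset.sum_eq_zero fun τ' _ => by
          rw [if_neg fun h2 => h (inc_inj h2).2.1, mul_zero]
      · exact fun h => absurd (mem_univ _) h
    · rw [if_neg hb]
      exact Finset.sum_eq_zero fun j' _ => Finset.sum_eq_zero fun ε' _ => Finset.sum_eq_zero fun τ' _ => by
          rw [if_neg fun h2 => hb (inc_inj h2).1, mul_zero]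
  rw [Finsupp.finset_sum_apply, Finset.sum_eq_single b]
  · rw [Finsupp.smul_apply, h1, if_pos rfl, smul_eq_mul]
  · intro b' _ hb
    rw [Finsupp.smul_apply, h1, if_neg hb, smul_zero]
  · exact fun h => absurd (mem_univ _) h

theorem cyc_uni [Fintype B] (hℓ : 0 < ℓ) (c : B → k) (h : ∑ b, c b • (cyc k b : Finset (Rs B ℓ) →₀ k) = 0) : c = 0 := by
  funext b
  have h1 := cyc_apply c b (⟨0, hℓ⟩ : Fin ℓ) false false
  rw [h, Finsupp.zero_apply] at h1
  unfold se at h1
  simpa using h1.symm

theorem ext_inc {z z' : Finset (Rs B ℓ) →₀ k} (hz : z ∈ Chk k (Set.univ : Set (Rs B ℓ)) 2)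
    (hz' : z' ∈ Chk k (Set.univ : Set (Rs B ℓ)) 2) (h : ∀ b j ε τ, z (inc b j ε τ) = z' (inc b j ε τ)) : z = z' := by
  ext s
  by_cases hs : IsChain (· ≤ ·) (s : Set (Rs B ℓ)) ∧ s.card = 2
  · obtain ⟨b, j, ε, τ, rfl⟩ := exists_inc hs.1 hs.2
    exact h b j ε τ
  · have h1 : ∀ w ∈ Chk k (Set.univ : Set (Rs B ℓ)) 2, w s = 0 := by
      intro w hw
      by_contra hne
      obtain ⟨h2, -, h3⟩ := mem_Chk.1 hw s (Finsupp.mem_support_iff.2 hne)
      exact hs ⟨h2, h3⟩
    rw [h1 z hz, h1 z' hz']

/-- the coefficients of the boundary -/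
theorem D_apply_single {z : Finset (Rs B ℓ) →₀ k} (hz : z ∈ Chk k (Set.univ : Set (Rs B ℓ)) 2) {M : Type}
    [AddCommGroup M] [Module k M] (f g : (Finset (Rs B ℓ) →₀ k) →ₗ[k] M)
    (h : ∀ b j ε τ, f (Finsupp.single (inc b j ε τ) 1) = g (Finsupp.single (inc b j ε τ) 1)) : f z = g z := by
  refine eq_Chk f g (fun s h1 _ h3 => ?_) hz
  obtain ⟨b, j, ε, τ, rfl⟩ := exists_inc h1 h3
  exact h b j ε τ

theorem rose_cyc [Fintype B] (hℓ : 0 < ℓ) {z : Finset (Rs B ℓ) →₀ k} (hz : z ∈ Chk k (Set.univ : Set (Rs B ℓ)) 2)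
    (h0 : D k z = 0) : ∃ c : B → k, z = ∑ b, c b • cyc k b := by
  classical
  -- (D z) at an edge
  have hD : ∀ (b : B) (j : Fin ℓ) (ε τ : Bool), D k (Finsupp.single (inc b j ε τ) (1 : k)) =
      Finsupp.single {ed b j ε} 1 - Finsupp.single {lo b j ε τ} 1 := fun b j ε τ => D_pair (lo_lt b j ε τ)
  have hE : ∀ (b : B) (j : Fin ℓ) (ε : Bool), z (inc b j ε true) + z (inc b j ε false) = 0 := by
    intro b j ε
    have h1 := D_apply_single hz (Finsupp.lapply {ed b j ε} ∘ₗ D k)
      (Finsupp.lapply (inc b j ε true) + Finsupp.lapply (inc b j ε false)) (fun b' j' ε' τ' => by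
        rw [LinearMap.comp_apply, hD]
        simp only [Finsupp.lapply_apply, LinearMap.add_apply, Finsupp.sub_apply, Finsupp.single_apply, singleton_inj]
        have h2 : ¬ lo b' j' ε' τ' = ed b j ε := fun h => by
          have := lo_isV b' j' ε' τ'
          rw [h] at this
          exact this
        rw [if_neg h2, sub_zero]
        by_cases h3 : ed b' j' ε' = ed b j ε
        · rw [if_pos h3]
          injection h3 with h4 h5 h6
          subst h4 h5 h6
          cases τ'
          · rw [if_neg (fun h => by cases (inc_inj h).2.2.2), if_pos rfl, zero_add]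
          · rw [if_pos rfl, if_neg (fun h => by cases (inc_inj h).2.2.2), add_zero]
        · rw [if_neg h3, if_neg, if_neg, add_zero]
          · intro h
            obtain ⟨rfl, rfl, rfl, -⟩ := inc_inj h
            exact h3 rfl
          · intro h
            obtain ⟨rfl, rfl, rfl, -⟩ := inc_inj h
            exact h3 rfl)
    rw [LinearMap.comp_apply, h0, map_zero] at h1
    exact h1.symm
  have hM : ∀ (b : B) (j : Fin ℓ), z (inc b j true true) + z (inc b j false true) = 0 := by
    intro b j
    have h1 := D_apply_single hz (Finsupp.lapply {md b j} ∘ₗ D k)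
      (-(Finsupp.lapply (inc b j true true) + Finsupp.lapply (inc b j false true))) (fun b' j' ε' τ' => by
        rw [LinearMap.comp_apply, hD]
        simp only [Finsupp.lapply_apply, LinearMap.neg_apply, LinearMap.add_apply, Finsupp.sub_apply,
          Finsupp.single_apply, singleton_inj]
        rw [if_neg (fun h => by cases h), zero_sub]
        congr 1
        by_cases h3 : lo b' j' ε' τ' = md b j
        · rw [if_pos h3]
          cases τ'
          · exact absurd h3 (en_ne_md _ _ _ _)
          · have h3 : md b' j' = md b j := h3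
            injection h3 with h4 h5
            subst h4 h5
            cases ε'
            · rw [if_neg (fun h => by cases (inc_inj h).2.2.1), if_pos rfl, zero_add]
            · rw [if_pos rfl, if_neg (fun h => by cases (inc_inj h).2.2.1), add_zero]
        · rw [if_neg h3, if_neg, if_neg, add_zero]
          · intro h
            obtain ⟨rfl, rfl, rfl, rfl⟩ := inc_inj h
            exact h3 rfl
          · intro h
            obtain ⟨rfl, rfl, rfl, rfl⟩ := inc_inj h
            exact h3 rfl)
    rw [LinearMap.comp_apply, h0, map_zero] at h1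
    have h2 := neg_eq_zero.1 h1.symm
    exact h2
  have hJ : ∀ (b : B) (n : ℕ) (h : n + 1 < ℓ), z (inc b ⟨n, by omega⟩ true false) + z (inc b ⟨n + 1, h⟩ false false) = 0 := by
    intro b n hn
    have hen : (en b (n + 1) : Rs B ℓ) = jc b ⟨n + 1, by omega, hn⟩ := by
      unfold en
      rw [dif_pos]
    have h1 := D_apply_single hz (Finsupp.lapply {(en b (n + 1) : Rs B ℓ)} ∘ₗ D k)
      (-(Finsupp.lapply (inc b ⟨n, by omega⟩ true false) + Finsupp.lapply (inc b ⟨n + 1, hn⟩ false false)))
      (fun b' j' ε' τ' => by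
        rw [LinearMap.comp_apply, hD]
        simp only [Finsupp.lapply_apply, LinearMap.neg_apply, LinearMap.add_apply, Finsupp.sub_apply,
          Finsupp.single_apply, singleton_inj]
        rw [if_neg (fun h => (en_ne_ed b (n + 1) _ _ _ h.symm).elim), zero_sub]
        congr 1
        by_cases h3 : lo b' j' ε' τ' = en b (n + 1)
        · rw [if_pos h3]
          cases τ'
          · have h3 : (en b' (j'.1 + ε'.toNat) : Rs B ℓ) = en b (n + 1) := h3
            rw [hen] at h3
            unfold en at h3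
            split_ifs at h3 with h4
            injection h3 with h5 h6
            subst h5
            have h7 := congrArg Subtype.val h6
            cases ε'
            · have h8 : j'.1 = n + 1 := by simpa using h7
              have h9 : j' = ⟨n + 1, hn⟩ := Fin.ext h8
              subst h9
              rw [if_neg (fun h => by cases (inc_inj h).2.2.1), if_pos rfl, zero_add]
            · have h8 : j'.1 + 1 = n + 1 := by simpa using h7
              have h9 : inc b' j' true false = inc b' ⟨n, by omega⟩ true false :=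
                congrArg (fun j => inc b' j true false) (Fin.ext (by simpa using h8))
              rw [if_pos h9, if_neg (fun h => by cases (inc_inj h).2.2.1), add_zero]
          · exact absurd h3.symm (en_ne_md _ _ _ _)
        · rw [if_neg h3, if_neg, if_neg, add_zero]
          · intro h
            obtain ⟨rfl, rfl, rfl, rfl⟩ := inc_inj h
            exact h3 rfl
          · intro h
            obtain ⟨rfl, rfl, rfl, rfl⟩ := inc_inj h
            exact h3 rfl)
    rw [LinearMap.comp_apply, h0, map_zero] at h1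
    have h2 := neg_eq_zero.1 h1.symm
    exact h2
  -- the coefficients are constant
  have hc : ∀ (b : B) (n : ℕ) (h : n < ℓ), z (inc b ⟨n, h⟩ false false) = z (inc b ⟨0, hℓ⟩ false false) := by
    intro b n
    induction n with
    | zero => exact fun _ => rfl
    | succ n ih =>
      intro hn
      have h1 := ih (by omega)
      have h2 := hJ b n hn
      have h3 := hE b ⟨n, by omega⟩ true
      have h4 := hE b ⟨n, by omega⟩ false
      have h5 := hM b ⟨n, by omega⟩
      rw [← h1]
      linear_combination h2 - h3 + h5 - h4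
  refine ⟨fun b => z (inc b ⟨0, hℓ⟩ false false), ext_inc hz ?_ ?_⟩
  · exact Submodule.sum_mem _ fun b _ => Submodule.smul_mem _ _ (cyc_mem b)
  · intro b j ε τ
    rw [cyc_apply, ← hc b j.1 j.2]
    have h3 := hE b j true
    have h4 := hE b j false
    have h5 := hM b j
    change _ = z (inc b j false false) * _
    unfold se
    cases ε <;> cases τ <;> simp only [if_true, Bool.false_eq_true, if_false, mul_one, mul_neg, neg_neg]
    · linear_combination h4
    · linear_combination h3 + h4 - h5
    · linear_combination h5 - h4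

/-- the homology of the rose outside degree 2 -/
theorem rose_hom (n : ℕ) (hn : n ≠ 1) {z : Finset (Rs B ℓ) →₀ k} (hz : z ∈ Chk k (Set.univ : Set (Rs B ℓ)) (n + 1))
    (h0 : D k z = 0) : ∃ y ∈ Chk k (Set.univ : Set (Rs B ℓ)) (n + 2), D k y = z := by
  rcases Nat.eq_zero_or_pos n with rfl | hp
  · exact rose_conn hz h0
  · refine ⟨0, Submodule.zero_mem _, ?_⟩
    rw [map_zero, Chk_three (by omega) hz]

end

end Pool.Agent.H2.EK
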