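import Pool.Agent.H2.EK.Sus

/-!
# [H2 EK] exchange of the two ends of a mapping cylinder, excision

`swap`: if `(S ∪ F, S)` is acyclic, `S` and `F` have homology only in degree 2 (two elements), free on the cycles `cS b`,
`cF b`, and `cF b ~ cS b` in `S ∪ F`, then `(S ∪ F, F)` is acyclic.
-/

set_option autoImplicit false

namespace Pool.Agent.H2.EK

open Finset

noncomputable section

variable {V : Type} [PartialOrder V] [DecidableEq V] {k : Type} [CommRing k]

theorem D_zero_deg {S : Set V} {z : Finset V →₀ k} (hz : z ∈ Chk k S 0) : D k z = 0 :=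
  eq_Chk (k := k) (S := S) (n := 0) (D k) 0 (fun s _ _ h3 => by
    rw [card_eq_zero.1 h3, D_single, LinearMap.zero_apply]
    simp [bdS]) hz

/-- chains without elements are boundaries -/
theorem hom0 {S : Set V} (hne : S.Nonempty) {z : Finset V →₀ k} (hz : z ∈ Chk k S 0) :
    ∃ y ∈ Chk k S 1, D k y = z := by
  obtain ⟨v, hv⟩ := hne
  have h1 : (Finsupp.single {v} (1 : k) : Finset V →₀ k) ∈ Chk k S 1 :=
    single_mem (by simp) (by simpa using hv) (card_singleton v) _
  have h2 : D k (Finsupp.single {v} (1 : k)) = Finsupp.single ∅ 1 := by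
    rw [D_single]
    unfold bdS
    rw [sum_singleton, erase_eq_empty_iff _ _ |>.2 (Or.inr rfl)]
    have : sg k v {v} = 1 := by
      unfold sg
      rw [filter_singleton, if_neg (lt_irrefl v), card_empty, pow_zero]
    rw [this, one_smul]
  have h3 : z = z ∅ • Finsupp.single ∅ 1 := by
    ext s
    rw [Finsupp.smul_apply, Finsupp.single_apply]
    split_ifs with h
    · rw [← h]
      simp
    · rw [smul_zero]
      by_contra hs
      exact h (card_eq_zero.1 (mem_Chk.1 hz s (Finsupp.mem_support_iff.2 hs)).2.2).symm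
  exact ⟨z ∅ • Finsupp.single {v} 1, Submodule.smul_mem _ _ h1, by rw [map_smul, h2, ← h3]⟩

theorem swap {S F : Set V} {B : Type} [Fintype B] (cS cF : B → (Finset V →₀ k)) (hA : AcyP k (S ∪ F) S)
    (hF : ∀ n, n ≠ 1 → ∀ z ∈ Chk k F (n + 1), D k z = 0 → ∃ y ∈ Chk k F (n + 2), D k y = z)
    (hS : ∀ n, n ≠ 1 → ∀ z ∈ Chk k S (n + 1), D k z = 0 → ∃ y ∈ Chk k S (n + 2), D k y = z)
    (hne : F.Nonempty) (cFm : ∀ b, cF b ∈ Chk k F 2) (cSm : ∀ b, cS b ∈ Chk k S 2)
    (hF2 : ∀ z ∈ Chk k F 2, D k z = 0 → ∃ c : B → k, z = ∑ b, c b • cF b)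
    (hS2 : ∀ z ∈ Chk k S 2, D k z = 0 → ∃ c : B → k, z = ∑ b, c b • cS b)
    (hSu : ∀ c : B → k, ∑ b, c b • cS b = 0 → c = 0)
    (hS3 : ∀ z ∈ Chk k S 3, z = 0)
    (hh : ∀ b, ∃ h ∈ Chk k (S ∪ F) 3, D k h = cF b - cS b) : AcyP k (S ∪ F) F := by
  choose h hm hd using hh
  have hsum : ∀ c : B → k, ∑ b, c b • h b ∈ Chk k (S ∪ F) 3 ∧
      D k (∑ b, c b • h b) = ∑ b, c b • cF b - ∑ b, c b • cS b := by
    intro c
    refine ⟨Submodule.sum_mem _ fun b _ => Submodule.smul_mem _ _ (hm b), ?_⟩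
    rw [map_sum, ← Finset.sum_sub_distrib]
    refine Finset.sum_congr rfl fun b _ => ?_
    rw [map_smul, hd, smul_sub]
  -- cycles of the union are homologous to chains of F
  have hcyc : ∀ n, ∀ v ∈ Chk k (S ∪ F) (n + 1), D k v = 0 → ∃ y ∈ Chk k (S ∪ F) (n + 2), v - D k y ∈ Chk k F (n + 1) := by
    intro n v hv hv0
    obtain ⟨y, hy, hvy⟩ := hA n v hv (by rw [hv0]; exact Submodule.zero_mem _)
    have h0 : D k (v - D k y) = 0 := by rw [map_sub, hv0, D_D hy, sub_zero]
    by_cases hn : n = 1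
    · subst hn
      obtain ⟨c, hc⟩ := hS2 _ hvy h0
      obtain ⟨h1, h2⟩ := hsum c
      refine ⟨y - ∑ b, c b • h b, Submodule.sub_mem _ hy h1, ?_⟩
      have : v - D k (y - ∑ b, c b • h b) = ∑ b, c b • cF b := by
        rw [map_sub, h2, ← hc]
        abel
      rw [this]
      exact Submodule.sum_mem _ fun b _ => Submodule.smul_mem _ _ (cFm b)
    · obtain ⟨u, hu, hu'⟩ := hS n hn _ hvy h0
      refine ⟨y + u, Submodule.add_mem _ hy (Chk_mono Set.subset_union_left _ hu), ?_⟩
      rw [map_add, hu']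
      simpa using Submodule.zero_mem _
  intro n z hz hDz
  have hDD : D k (D k z) = 0 := D_D hz
  -- `D z = D w` with `w` in `F`
  have hw : ∃ w ∈ Chk k F (n + 1), D k w = D k z := by
    rcases Nat.eq_zero_or_eq_succ_pred n with hn | hn
    · rw [hn] at hDz ⊢
      exact hom0 hne hDz
    · obtain ⟨m, rfl⟩ : ∃ m, n = m + 1 := ⟨_, hn⟩
      by_cases hm : m = 1
      · subst hm
        obtain ⟨c, hc⟩ := hF2 _ hDz hDD
        obtain ⟨h1, h2⟩ := hsum c
        have h3 : D k (z - ∑ b, c b • h b) = ∑ b, c b • cS b := by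
          rw [map_sub, h2, ← hc, sub_sub_cancel]
        obtain ⟨y, hy, hzy⟩ := hA 2 (z - ∑ b, c b • h b) (Submodule.sub_mem _ hz h1) (by
          rw [h3]
          exact Submodule.sum_mem _ fun b _ => Submodule.smul_mem _ _ (cSm b))
        have h4 : ∑ b, c b • cS b = 0 := by
          have h5 := congrArg (D k) (hS3 _ hzy)
          rwa [map_sub, D_D hy, sub_zero, map_zero, h3] at h5
        have h6 := hSu c h4
        refine ⟨0, Submodule.zero_mem _, ?_⟩
        rw [map_zero, hc, h6]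
        simp
      · exact hF m hm _ hDz hDD
  obtain ⟨w, hw, hw'⟩ := hw
  obtain ⟨y, hy, hzy⟩ := hcyc n (z - w) (Submodule.sub_mem _ hz (Chk_mono Set.subset_union_right _ hw))
    (by rw [map_sub, hw', sub_self])
  refine ⟨y, hy, ?_⟩
  have : z - D k y = (z - w - D k y) + w := by abel
  rw [this]
  exact Submodule.add_mem _ hzy hw

/-- excision -/
theorem excis {S F T : Set V} (h : AcyP k (S ∪ F) F) (hST : ∀ x ∈ S, ∀ y ∈ T, ¬ x ≤ y ∧ ¬ y ≤ x) :
    AcyP k (S ∪ F ∪ T) (F ∪ T) := by
  classical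
  intro n z hz hD
  -- the part of `z` in `S ∪ F`
  let q : (Finset V →₀ k) →ₗ[k] (Finset V →₀ k) :=
    Finsupp.linearCombination k fun s => if (s : Set V) ⊆ S ∪ F then Finsupp.single s (1 : k) else 0
  have hq : ∀ s : Finset V, q (Finsupp.single s (1 : k)) = if (s : Set V) ⊆ S ∪ F then Finsupp.single s (1 : k) else 0 := by
    intro s
    change Finsupp.linearCombination k _ _ = _
    rw [Finsupp.linearCombination_single, one_smul]
  have h1 : q z ∈ Chk k (S ∪ F) (n + 1) := by
    refine map_Chk q _ (fun s a b c => ?_) hz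
    rw [hq]
    split_ifs with h2
    · exact single_mem a h2 c _
    · exact Submodule.zero_mem _
  have h2 : z - q z ∈ Chk k (F ∪ T) (n + 1) := by
    refine map_Chk (LinearMap.id - q) _ (fun s a b c => ?_) hz
    rw [LinearMap.sub_apply, LinearMap.id_apply, hq]
    split_ifs with h2
    · rw [sub_self]
      exact Submodule.zero_mem _
    · rw [sub_zero]
      refine single_mem a (fun x hx => ?_) c _
      rcases b hx with (hxS | hxF) | hxT
      · exfalso
        rw [Set.not_subset] at h2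
        obtain ⟨y, hy, hyn⟩ := h2
        have hyT : y ∈ T := (b hy).resolve_left hyn
        rcases a.total hx hy with h3 | h3
        · exact (hST x hxS y hyT).1 h3
        · exact (hST x hxS y hyT).2 h3
      · exact Or.inl hxF
      · exact Or.inr hxT
  have h3 : D k (q z) ∈ Chk k F n := by
    have h4 : D k (q z) ∈ Chk k (F ∪ T) n := by
      have : D k (q z) = D k z - D k (z - q z) := by
        rw [map_sub]
        abel
      rw [this]
      exact Submodule.sub_mem _ hD (D_mem h2)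
    refine Chk_mono ?_ n (inter_Chk (D_mem h1) h4)
    rintro x ⟨hx1 | hx1, hx2 | hx2⟩
    · exact hx2
    · exact absurd le_rfl (hST x hx1 x hx2).1
    · exact hx1
    · exact hx1
  obtain ⟨y, hy, hy'⟩ := h n (q z) h1 h3
  refine ⟨y, Chk_mono Set.subset_union_left _ hy, ?_⟩
  have : z - D k y = (z - q z) + (q z - D k y) := by abel
  rw [this]
  exact Submodule.add_mem _ h2 (Chk_mono Set.subset_union_left _ hy')

end

end Pool.Agent.H2.EK
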