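import Pool.Agent.H2.EK.TlB
import Pool.Agent.H2.EK.RoH
import Pool.Agent.H2.EK.Emb
import Pool.Agent.H2.EK.Swp

/-!
# [H2 EK] the mapping cylinders in the telescope
-/

set_option autoImplicit false

namespace Pool.Agent.H2.EK

open Finset

noncomputable section

open Rs Tl

variable {B : Type} {ℓ : ℕ} {w : B → Fin ℓ → Option (B × Bool)} {k : Type} [CommRing k]

variable (w) in
/-- the layer `C i` -/
def ιC (i : ℤ) : Rs B 1 ↪o Tl B ℓ w where
  toFun := c i
  inj' x y h := by
    injection h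
  map_rel_iff' := by
    intro x y
    constructor
    · exact fun h => (cc.1 h).2
    · exact fun h => cc.2 ⟨rfl, h⟩

variable (w) in
/-- the layer `F i` -/
def ιF (i : ℤ) : Rs B ℓ ↪o Tl B ℓ w where
  toFun := f i
  inj' x y h := by
    injection h
  map_rel_iff' := by
    intro x y
    constructor
    · exact fun h => (ff.1 h).2
    · exact fun h => ff.2 ⟨rfl, h⟩

theorem range_ιC (i : ℤ) : Set.range (ιC w i) = C i := rfl
theorem range_ιF (i : ℤ) : Set.range (ιF w i) = F i := rfl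

/-- the cylinder collapses onto its lower end -/
theorem cyl (i' i : ℤ) (g : Rs B ℓ → Rs B 1) (hg : ∀ x y, (c i' x : Tl B ℓ w) ≤ f i y ↔ x ≤ g y) (gm : Monotone g) :
    AcyP k ((C i' : Set (Tl B ℓ w)) ∪ F i) (C i') := by
  classical
  let N1 : Set (Tl B ℓ w) := {v | ∃ x : Rs B ℓ, ¬ x.IsV ∧ v = f i x}
  let N2 : Set (Tl B ℓ w) := {v | ∃ x : Rs B ℓ, x.IsV ∧ v = f i x}
  let a : Tl B ℓ w → Tl B ℓ w := fun v => match v with
    | f _ x => c i' (g x)
    | _ => v
  have hlt : ∀ x : Rs B ℓ, (c i' (g x) : Tl B ℓ w) < f i x := fun x =>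
    lt_of_le_of_ne ((hg _ _).2 le_rfl) (fun h => by cases h)
  have h1 : AcyP k ((C i' : Set (Tl B ℓ w)) ∪ N1) (C i') := by
    refine cone_step a ?_ ?_ ?_ ?_
    · rintro _ ⟨x, -, rfl⟩ ⟨y, hy⟩
      cases hy
    · rintro _ ⟨x, hx, rfl⟩ _ ⟨y, hy, rfl⟩ h
      by_contra hne
      have h2 : x < y := lt_of_le_of_ne (ff.1 h).2 fun e => hne (by rw [e])
      exact hx (isV_of_lt h2)
    · rintro _ ⟨x, -, rfl⟩
      exact ⟨⟨g x, rfl⟩, Or.inl (hlt x)⟩
    · rintro _ ⟨x, -, rfl⟩ _ ⟨y, rfl⟩ (h | h)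
      · have h2 : y ≤ g x := (hg _ _).1 h.le
        rcases eq_or_lt_of_le h2 with rfl | h2
        · exact Or.inl rfl
        · exact Or.inr (Or.inl ((ιC w i').lt_iff_lt.2 h2))
      · exact absurd h.le fc
  have h2 : AcyP k ((C i' : Set (Tl B ℓ w)) ∪ N1 ∪ N2) (C i' ∪ N1) := by
    refine cone_step a ?_ ?_ ?_ ?_
    · rintro _ ⟨x, hx, rfl⟩ (⟨y, hy⟩ | ⟨y, hy, hxy⟩)
      · cases hy
      · injection hxy with _ h
        rw [h] at hx
        exact hy hx
    · rintro _ ⟨x, hx, rfl⟩ _ ⟨y, hy, rfl⟩ h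
      rw [eq_of_le (ff.1 h).2 hy]
    · rintro _ ⟨x, -, rfl⟩
      exact ⟨Or.inl ⟨g x, rfl⟩, Or.inl (hlt x)⟩
    · rintro _ ⟨x, hx, rfl⟩ _ (⟨y, rfl⟩ | ⟨y, hy, rfl⟩) h
      · rcases h with h | h
        · have h2 : y ≤ g x := (hg _ _).1 h.le
          rcases eq_or_lt_of_le h2 with rfl | h2
          · exact Or.inl rfl
          · exact Or.inr (Or.inl ((ιC w i').lt_iff_lt.2 h2))
        · exact absurd h.le fc
      · rcases h with h | h
        · exact absurd (isV_of_lt ((ιF w i).lt_iff_lt.1 h)) hy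
        · refine Or.inr (Or.inr (lt_of_le_of_ne ((hg _ _).2 (gm (ff.1 h.le).2)) (fun h => by cases h)))
  have h3 : (C i' : Set (Tl B ℓ w)) ∪ F i = C i' ∪ N1 ∪ N2 := by
    rw [Set.union_assoc]
    congr 1
    ext v
    constructor
    · rintro ⟨x, rfl⟩
      by_cases hx : x.IsV
      · exact Or.inr ⟨x, hx, rfl⟩
      · exact Or.inl ⟨x, hx, rfl⟩
    · rintro (⟨x, -, rfl⟩ | ⟨x, -, rfl⟩) <;> exact ⟨x, rfl⟩
  rw [h3]
  exact h2.trans h1 Set.subset_union_left Set.subset_union_left

section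
variable {V : Type} [PartialOrder V] [DecidableEq V]

theorem sg_bot {x : V} {s : Finset V} (h : ∀ y ∈ s, x < y) : sg k x s = 1 := by
  classical
  unfold sg
  rw [filter_eq_empty_iff.2, card_empty, pow_zero]
  intro a ha
  exact (h a ha).asymm

theorem D_triple {x y z : V} (hxy : x < y) (hyz : y < z) : D k (Finsupp.single {x, y, z} (1 : k)) =
    Finsupp.single {y, z} 1 - Finsupp.single {x, z} 1 + Finsupp.single {x, y} 1 := by
  have h1 : x ∉ ({y, z} : Finset V) := by
    rw [mem_insert, mem_singleton]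
    rintro (rfl | rfl)
    · exact lt_irrefl _ hxy
    · exact lt_irrefl _ (hxy.trans hyz)
  have h2 : ∀ v ∈ ({y, z} : Finset V), x < v := by
    intro v hv
    rw [mem_insert, mem_singleton] at hv
    rcases hv with rfl | rfl
    · exact hxy
    · exact hxy.trans hyz
  have h3 := D_ins_single (k := k) h1 (fun v hv => Or.inr (h2 v hv))
  rw [ins_single h1, sg_bot h2, one_smul, D_pair hyz, map_sub] at h3
  have h4 : ∀ v, x < v → ins k x (Finsupp.single {v} (1 : k)) = Finsupp.single {x, v} 1 := by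
    intro v hv
    rw [ins_single (by rw [mem_singleton]; exact hv.ne), sg_bot (by simpa using hv), one_smul]
  rw [h4 z (hxy.trans hyz), h4 y hxy] at h3
  rw [h3]
  abel

end

/-- the cycles in the layers -/
def cC (w : B → Fin ℓ → Option (B × Bool)) (k : Type) [CommRing k] (i : ℤ) (b : B) : Finset (Tl B ℓ w) →₀ k :=
  emF k (ιC w i) (cyc k b)

/-- the cycles in the layers -/
def cF (w : B → Fin ℓ → Option (B × Bool)) (k : Type) [CommRing k] (i : ℤ) (b : B) : Finset (Tl B ℓ w) →₀ k :=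
  emF k (ιF w i) (cyc k b)

theorem cC_mem (i : ℤ) (b : B) : cC w k i b ∈ Chk k (C i) 2 := by
  have := emF_mem (ιC w i) (cyc_mem (k := k) (ℓ := 1) b)
  rwa [Set.image_univ, range_ιC] at this

theorem cF_mem (i : ℤ) (b : B) : cF w k i b ∈ Chk k (F i) 2 := by
  have := emF_mem (ιF w i) (cyc_mem (k := k) (ℓ := ℓ) b)
  rwa [Set.image_univ, range_ιF] at this

theorem cC_D (i : ℤ) (b : B) : D k (cC w k i b) = 0 := by
  unfold cC
  rw [emF_D, cyc_D, map_zero]

/-- the contribution of a letter -/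
def lsum (w : B → Fin ℓ → Option (B × Bool)) (k : Type) [CommRing k] (i : ℤ) : Option (B × Bool) → (Finset (Tl B ℓ w) →₀ k)
  | none => 0
  | some o => (if o.2 then (-1 : k) else 1) • cC w k i o.1

/-- the prism -/
theorem prism (i' i : ℤ) (v : B → Fin ℓ → Option (B × Bool)) (hg : ∀ x y, (c i' x : Tl B ℓ w) ≤ f i y ↔ x ≤ wmap v y)
    (b : B) : ∃ h ∈ Chk k ((C i' : Set (Tl B ℓ w)) ∪ F i) 3,
      D k h = cF w k i b - ∑ j, lsum w k i' (v b j) := by
  classical
  have hlt : ∀ x : Rs B ℓ, (c i' (wmap v x) : Tl B ℓ w) < f i x := fun x =>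
    lt_of_le_of_ne ((hg _ _).2 le_rfl) (fun h => by cases h)
  let Im : Rs B ℓ → Rs B ℓ → (Finset (Tl B ℓ w) →₀ k) := fun x y =>
    if wmap v x = wmap v y then 0 else Finsupp.single {c i' (wmap v x), c i' (wmap v y)} 1
  let G : (Finset (Rs B ℓ) →₀ k) →ₗ[k] (Finset (Tl B ℓ w) →₀ k) :=
    Finsupp.linearCombination k fun s => ∑ x ∈ s, Finsupp.single {c i' (wmap v x), f i x} (1 : k)
  have hG : ∀ x : Rs B ℓ, G (Finsupp.single {x} 1) = Finsupp.single {c i' (wmap v x), f i x} 1 := by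
    intro x
    change Finsupp.linearCombination k _ _ = _
    rw [Finsupp.linearCombination_single, one_smul, sum_singleton]
  -- one incidence
  have key : ∀ x y : Rs B ℓ, x < y → ∃ h ∈ Chk k ((C i' : Set (Tl B ℓ w)) ∪ F i) 3,
      D k h = Finsupp.single {f i x, f i y} 1 - G (D k (Finsupp.single {x, y} 1)) - Im x y := by
    intro x y hxy
    have h1 : (f i x : Tl B ℓ w) < f i y := (ιF w i).lt_iff_lt.2 hxy
    have h2 : (c i' (wmap v x) : Tl B ℓ w) < f i x := hlt x
    have hm : ∀ p q r : Tl B ℓ w, p < q → q < r → p ∈ (C i' : Set (Tl B ℓ w)) ∪ F i → q ∈ (C i' : Set (Tl B ℓ w)) ∪ F i →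
        r ∈ (C i' : Set (Tl B ℓ w)) ∪ F i →
        (Finsupp.single {p, q, r} 1 : Finset (Tl B ℓ w) →₀ k) ∈ Chk k ((C i' : Set (Tl B ℓ w)) ∪ F i) 3 := by
      intro p q r hpq hqr hp hq hr
      refine single_mem ?_ ?_ ?_ _
      · refine chain_insert ?_ ?_
        · rw [coe_pair]
          exact IsChain.pair hqr.le
        · intro u hu
          rw [mem_insert, mem_singleton] at hu
          rcases hu with rfl | rfl
          · exact Or.inr hpq
          · exact Or.inr (hpq.trans hqr)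
      · rw [coe_insert, coe_pair]
        rintro u (rfl | rfl | rfl)
        · exact hp
        · exact hq
        · exact hr
      · rw [card_eq_three]
        exact ⟨p, q, r, hpq.ne, (hpq.trans hqr).ne, hqr.ne, rfl⟩
    rw [D_pair hxy, map_sub, hG, hG]
    by_cases hc : wmap v x = wmap v y
    · refine ⟨Finsupp.single {c i' (wmap v x), f i x, f i y} 1,
        hm _ _ _ h2 h1 (Or.inl ⟨_, rfl⟩) (Or.inr ⟨_, rfl⟩) (Or.inr ⟨_, rfl⟩), ?_⟩
      rw [D_triple h2 h1]
      change _ = _ - _ - (if wmap v x = wmap v y then 0 else _)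
      rw [if_pos hc, hc]
      abel
    · have h3 : (c i' (wmap v x) : Tl B ℓ w) < c i' (wmap v y) :=
        (ιC w i').lt_iff_lt.2 (lt_of_le_of_ne (wmap_mono v hxy.le) hc)
      refine ⟨Finsupp.single {c i' (wmap v x), f i x, f i y} 1 - Finsupp.single {c i' (wmap v x), c i' (wmap v y), f i y} 1,
        Submodule.sub_mem _ (hm _ _ _ h2 h1 (Or.inl ⟨_, rfl⟩) (Or.inr ⟨_, rfl⟩) (Or.inr ⟨_, rfl⟩))
          (hm _ _ _ h3 (hlt y) (Or.inl ⟨_, rfl⟩) (Or.inl ⟨_, rfl⟩) (Or.inr ⟨_, rfl⟩)), ?_⟩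
      rw [map_sub, D_triple h2 h1, D_triple h3 (hlt y)]
      change _ = _ - _ - (if wmap v x = wmap v y then 0 else _)
      rw [if_neg hc]
      abel
  choose! h hm hd using key
  -- the image of a letter
  have him : ∀ j, ∑ ε, ∑ τ, se k ε τ • Im (lo b j ε τ) (ed b j ε) = lsum w k i' (v b j) := by
    intro j
    have hlo : ∀ ε τ, wmap v (lo b j ε τ) = if τ then mo (v b j) else pt := by
      intro ε τ
      cases τ
      · exact wmap_en v b _
      · rfl
    have hed : ∀ ε, wmap v (ed b j ε) = eo ε (v b j) := fun ε => rfl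
    change ∑ ε, ∑ τ, se k ε τ • (if wmap v (lo b j ε τ) = wmap v (ed b j ε) then 0 else
      (Finsupp.single {c i' (wmap v (lo b j ε τ)), c i' (wmap v (ed b j ε))} 1 : Finset (Tl B ℓ w) →₀ k)) = _
    simp only [hlo, hed]
    rcases v b j with _ | o
    · refine Finset.sum_eq_zero fun ε _ => Finset.sum_eq_zero fun τ _ => ?_
      have h1 : (if τ = true then mo none else pt) = (eo ε none : Rs B 1) := by cases τ <;> rfl
      rw [if_pos h1, smul_zero]
    · have h1 : ∀ ε τ, (if (if τ = true then mo (some o) else pt) = eo ε (some o) then 0 else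
          (Finsupp.single {c i' (if τ = true then mo (some o) else pt), c i' (eo ε (some o))} 1 : Finset (Tl B ℓ w) →₀ k)) =
          emF k (ιC w i') (Finsupp.single (inc o.1 0 (xor ε o.2) τ) 1) := by
        intro ε τ
        have h2 : (if τ = true then mo (some o) else pt) = (lo o.1 0 (xor ε o.2) τ : Rs B 1) := by
          cases τ
          · exact (en_one _ _).symm
          · rfl
        have h3 : eo ε (some o) = ed o.1 0 (xor ε o.2) := rfl
        rw [h2, h3, if_neg (lo_lt _ _ _ _).ne, emF_single]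
        congr 1
        unfold inc
        rw [map_insert, map_singleton]
        rfl
      simp only [h1]
      unfold lsum cC cyc
      simp only [Fintype.sum_bool, Fintype.sum_unique, map_add, map_smul, smul_add, smul_smul, Fin.default_eq_zero]
      unfold se
      rcases o with ⟨b', σ⟩
      cases σ
      · simp only [Bool.bne_false, Bool.xor_false, Bool.false_eq_true, if_false, if_true, one_mul, mul_one]
      · simp only [Bool.xor_true, Bool.not_true, Bool.not_false, Bool.false_eq_true, if_false, if_true, one_mul, mul_one,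
          mul_neg, neg_neg]
        abel
  refine ⟨∑ j, ∑ ε, ∑ τ, se k ε τ • h (lo b j ε τ) (ed b j ε), ?_, ?_⟩
  · exact Submodule.sum_mem _ fun j _ => Submodule.sum_mem _ fun ε _ => Submodule.sum_mem _ fun τ _ =>
      Submodule.smul_mem _ _ (hm _ _ (lo_lt b j ε τ))
  · have h1 : D k (∑ j, ∑ ε, ∑ τ, se k ε τ • h (lo b j ε τ) (ed b j ε)) =
        cF w k i b - G (D k (cyc k b)) - ∑ j, ∑ ε, ∑ τ, se k ε τ • Im (lo b j ε τ) (ed b j ε) := by
      unfold cF cyc
      simp only [map_sum, map_smul, ← Finset.sum_sub_distrib, ← smul_sub]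
      refine Finset.sum_congr rfl fun j _ => Finset.sum_congr rfl fun ε _ => Finset.sum_congr rfl fun τ _ => ?_
      rw [hd _ _ (lo_lt b j ε τ), emF_single]
      congr 3
      unfold inc
      rw [map_insert, map_singleton]
      rfl
    rw [h1, cyc_D, map_zero, sub_zero]
    congr 1
    exact Finset.sum_congr rfl fun j _ => him j

end

end Pool.Agent.H2.EK
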