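import Mathlib

/-!
# [H2 EK] MP_5c3080_gt, chapter (E): chains of a partially ordered set as finite sets

`sg k a s = (-1)^(number of elements of s below a)`, `D k` the boundary `s ↦ Σ_{a ∈ s} sg a s • (s - a)`, `Chk k S n` the
chains of the order complex of `S` with `n` elements, `ins k a` the insertion of `a` (with sign).
`AcyP k S T`: the pair `(S, T)` is acyclic (all coefficients, all degrees).
-/

set_option autoImplicit false

namespace Pool.Agent.H2.EK

open Finset

noncomputable section

variable {V : Type} [PartialOrder V] [DecidableEq V] (k : Type) [CommRing k]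

open Classical in
/-- the sign `(-1)^(number of elements of s below a)` -/
def sg (a : V) (s : Finset V) : k := (-1) ^ (s.filter (fun x => x < a)).card

/-- the boundary of the set `s` -/
def bdS (s : Finset V) : Finset V →₀ k := ∑ a ∈ s, sg k a s • Finsupp.single (s.erase a) (1 : k)

/-- the boundary -/
def D : (Finset V →₀ k) →ₗ[k] (Finset V →₀ k) := Finsupp.linearCombination k (bdS k)

/-- the chains with `n` elements and all elements in `S` -/
def Chk (S : Set V) (n : ℕ) : Submodule k (Finset V →₀ k) :=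
  Finsupp.supported k k {s | IsChain (· ≤ ·) (s : Set V) ∧ (s : Set V) ⊆ S ∧ s.card = n}

/-- the pair `(S, T)` is acyclic -/
def AcyP (S T : Set V) : Prop :=
  ∀ (n : ℕ) (z : Finset V →₀ k), z ∈ Chk k S (n + 1) → D k z ∈ Chk k T n →
    ∃ y ∈ Chk k S (n + 2), z - D k y ∈ Chk k T (n + 1)

/-- the insertion of `a` -/
def ins (a : V) : (Finset V →₀ k) →ₗ[k] (Finset V →₀ k) :=
  Finsupp.linearCombination k fun s => if a ∈ s then 0 else sg k a s • Finsupp.single (insert a s) (1 : k)

variable {k}

theorem sg_mul_self (a : V) (s : Finset V) : sg k a s * sg k a s = 1 := by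
  unfold sg
  rw [← pow_add, ← two_mul, pow_mul, neg_one_sq, one_pow]

theorem D_single (s : Finset V) : D k (Finsupp.single s 1) = bdS k s := by
  unfold D
  rw [Finsupp.linearCombination_single, one_smul]

theorem ins_single {a : V} {s : Finset V} (h : a ∉ s) :
    ins k a (Finsupp.single s 1) = sg k a s • Finsupp.single (insert a s) 1 := by
  unfold ins
  rw [Finsupp.linearCombination_single, one_smul, if_neg h]

theorem ins_single_mem {a : V} {s : Finset V} (h : a ∈ s) : ins k a (Finsupp.single s (1 : k)) = 0 := by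
  unfold ins
  rw [Finsupp.linearCombination_single, one_smul, if_pos h]

theorem single_mem {S : Set V} {n : ℕ} {s : Finset V} (h1 : IsChain (· ≤ ·) (s : Set V)) (h2 : (s : Set V) ⊆ S)
    (h3 : s.card = n) (c : k) : Finsupp.single s c ∈ Chk k S n :=
  Finsupp.single_mem_supported k c ⟨h1, h2, h3⟩

theorem mem_Chk {S : Set V} {n : ℕ} {z : Finset V →₀ k} :
    z ∈ Chk k S n ↔ ∀ s ∈ z.support, IsChain (· ≤ ·) (s : Set V) ∧ (s : Set V) ⊆ S ∧ s.card = n := by
  unfold Chk
  rw [Finsupp.mem_supported]
  rfl

/-- linear maps which send chains to chains -/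
theorem map_Chk {S : Set V} {n : ℕ} {M : Type} [AddCommGroup M] [Module k M] (f : (Finset V →₀ k) →ₗ[k] M)
    (N : Submodule k M)
    (h : ∀ s : Finset V, IsChain (· ≤ ·) (s : Set V) → (s : Set V) ⊆ S → s.card = n → f (Finsupp.single s 1) ∈ N)
    {z : Finset V →₀ k} (hz : z ∈ Chk k S n) : f z ∈ N := by
  rw [← Finsupp.sum_single z, Finsupp.sum, map_sum]
  refine Submodule.sum_mem _ fun s hs => ?_
  obtain ⟨h1, h2, h3⟩ := mem_Chk.1 hz s hs
  rw [← mul_one (z s), ← smul_eq_mul, ← Finsupp.smul_single, map_smul]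
  exact N.smul_mem _ (h s h1 h2 h3)

/-- linear identities on chains -/
theorem eq_Chk {S : Set V} {n : ℕ} {M : Type} [AddCommGroup M] [Module k M] (f g : (Finset V →₀ k) →ₗ[k] M)
    (h : ∀ s : Finset V, IsChain (· ≤ ·) (s : Set V) → (s : Set V) ⊆ S → s.card = n →
      f (Finsupp.single s 1) = g (Finsupp.single s 1))
    {z : Finset V →₀ k} (hz : z ∈ Chk k S n) : f z = g z := by
  have h1 := map_Chk (f - g) ⊥ (S := S) (n := n) (fun s a b c => by
    rw [Submodule.mem_bot, LinearMap.sub_apply, sub_eq_zero]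
    exact h s a b c) hz
  rwa [Submodule.mem_bot, LinearMap.sub_apply, sub_eq_zero] at h1

theorem Chk_mono {S T : Set V} (h : S ⊆ T) (n : ℕ) : Chk k S n ≤ Chk k T n := by
  intro z hz
  rw [mem_Chk] at hz ⊢
  exact fun s hs => ⟨(hz s hs).1, (hz s hs).2.1.trans h, (hz s hs).2.2⟩

theorem inter_Chk {S T : Set V} {n : ℕ} {z : Finset V →₀ k} (h : z ∈ Chk k S n) (h' : z ∈ Chk k T n) :
    z ∈ Chk k (S ∩ T) n := by
  rw [mem_Chk] at h h' ⊢
  exact fun s hs => ⟨(h s hs).1, Set.subset_inter (h s hs).2.1 (h' s hs).2.1, (h s hs).2.2⟩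

theorem chain_lt {s : Set V} (hs : IsChain (· ≤ ·) s) {a b : V} (ha : a ∈ s) (hb : b ∈ s) (hab : a ≠ b) :
    a < b ∨ b < a := by
  rcases hs ha hb hab with h | h
  · exact Or.inl (lt_of_le_of_ne h hab)
  · exact Or.inr (lt_of_le_of_ne h hab.symm)

theorem sg_erase (a b : V) (s : Finset V) (hb : b ∈ s) :
    sg k a (s.erase b) = (open Classical in if b < a then -1 else 1) * sg k a s := by
  classical
  unfold sg
  split_ifs with h
  · have h1 : (s.filter (fun x => x < a)) = insert b ((s.erase b).filter (fun x => x < a)) := by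
      ext x
      simp only [mem_filter, mem_insert, mem_erase]
      constructor
      · rintro ⟨hx, hxa⟩
        by_cases hxb : x = b
        · exact Or.inl hxb
        · exact Or.inr ⟨⟨hxb, hx⟩, hxa⟩
      · rintro (rfl | ⟨⟨_, hx⟩, hxa⟩)
        · exact ⟨hb, h⟩
        · exact ⟨hx, hxa⟩
    have h2 : b ∉ (s.erase b).filter (fun x => x < a) := by simp
    have h3 := congrArg Finset.card h1
    rw [card_insert_of_notMem h2] at h3
    have h4 : ((s.filter (fun x => x < a)).card) = ((s.erase b).filter (fun x => x < a)).card + 1 := by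
      convert h3
    have : (-1 : k) ^ (s.filter (fun x => x < a)).card = (-1) ^ (((s.erase b).filter (fun x => x < a)).card + 1) := by
      rw [h4]
    rw [this, pow_succ]
    ring
  · have h1 : (s.erase b).filter (fun x => x < a) = s.filter (fun x => x < a) := by
      ext x
      simp only [mem_filter, mem_erase]
      constructor
      · rintro ⟨⟨_, hx⟩, hxa⟩
        exact ⟨hx, hxa⟩
      · rintro ⟨hx, hxa⟩
        refine ⟨⟨?_, hx⟩, hxa⟩
        rintro rfl
        exact h hxa
    rw [one_mul]
    congr 2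

theorem sg_insert (a b : V) (s : Finset V) (hb : b ∉ s) :
    sg k a (insert b s) = (open Classical in if b < a then -1 else 1) * sg k a s := by
  classical
  have h1 := sg_erase (k := k) a b (insert b s) (mem_insert_self b s)
  rw [erase_insert hb] at h1
  rw [h1, ← mul_assoc]
  split_ifs <;> simp

theorem D_mem {S : Set V} {n : ℕ} {z : Finset V →₀ k} (hz : z ∈ Chk k S (n + 1)) : D k z ∈ Chk k S n := by
  refine map_Chk (D k) _ (fun s h1 h2 h3 => ?_) hz
  rw [D_single]
  refine Submodule.sum_mem _ fun a ha => Submodule.smul_mem _ _ (single_mem (h1.mono ?_) ?_ ?_ _)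
  · simp
  · exact (by simp : ((s.erase a : Finset V) : Set V) ⊆ s).trans h2
  · rw [card_erase_of_mem ha, h3]
    rfl

/-- the boundary of a boundary is zero -/
theorem D_D {S : Set V} {n : ℕ} {z : Finset V →₀ k} (hz : z ∈ Chk k S n) : D k (D k z) = 0 := by
  classical
  have key := eq_Chk (k := k) (S := S) (n := n) (D k ∘ₗ D k) 0 (fun s h1 _ _ => ?_) hz
  · exact key
  rw [LinearMap.comp_apply, D_single, LinearMap.zero_apply]
  unfold bdS
  rw [map_sum]
  have h2 : ∀ a ∈ s, D k (sg k a s • Finsupp.single (s.erase a) (1 : k)) =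
      ∑ b ∈ s, if b = a then 0 else (sg k a s * sg k b (s.erase a)) • Finsupp.single ((s.erase a).erase b) (1 : k) := by
    intro a ha
    rw [map_smul, D_single]
    unfold bdS
    rw [smul_sum, ← Finset.sum_filter_add_sum_filter_not s (fun b => b = a)]
    rw [Finset.sum_eq_zero (s := s.filter (fun b => b = a)) (fun b hb => by
      rw [if_pos (mem_filter.1 hb).2]), zero_add]
    have h3 : s.filter (fun b => ¬ b = a) = s.erase a := by
      ext x
      simp [and_comm]
    rw [h3]
    refine Finset.sum_congr rfl fun b hb => ?_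
    rw [if_neg (ne_of_mem_erase hb), smul_smul]
  rw [Finset.sum_congr rfl h2]
  -- antisymmetry
  have h4 : ∀ a ∈ s, ∀ b ∈ s,
      (if b = a then 0 else (sg k a s * sg k b (s.erase a)) • Finsupp.single ((s.erase a).erase b) (1 : k)) =
      - (if a = b then 0 else (sg k b s * sg k a (s.erase b)) • Finsupp.single ((s.erase b).erase a) (1 : k)) := by
    intro a ha b hb
    by_cases hab : a = b
    · subst hab
      simp
    · rw [if_neg hab, if_neg (Ne.symm hab), sg_erase b a s ha, sg_erase a b s hb,
        Finset.erase_right_comm, ← neg_smul]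
      congr 1
      rcases chain_lt h1 ha hb hab with h | h
      · rw [if_pos h, if_neg h.asymm]
        ring
      · rw [if_neg h.asymm, if_pos h]
        ring
  -- pair the terms by a strict total choice
  have h5 : ∑ a ∈ s, ∑ b ∈ s,
      (if b = a then 0 else (sg k a s * sg k b (s.erase a)) • Finsupp.single ((s.erase a).erase b) (1 : k)) =
      ∑ a ∈ s, ∑ b ∈ s, ((if a < b then (sg k a s * sg k b (s.erase a)) • Finsupp.single ((s.erase a).erase b) (1 : k) else 0) -
        (if b < a then (sg k b s * sg k a (s.erase b)) • Finsupp.single ((s.erase b).erase a) (1 : k) else 0)) := by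
    refine Finset.sum_congr rfl fun a ha => Finset.sum_congr rfl fun b hb => ?_
    by_cases hab : a = b
    · subst hab
      simp
    · rcases chain_lt h1 ha hb hab with h | h
      · rw [if_neg (Ne.symm hab), if_pos h, if_neg h.asymm, sub_zero]
      · rw [h4 a ha b hb, if_neg hab, if_neg h.asymm, if_pos h, zero_sub]
  rw [h5]
  simp only [Finset.sum_sub_distrib]
  rw [sub_eq_zero]
  exact Finset.sum_comm

theorem AcyP.trans {S T U : Set V} (h1 : AcyP k S T) (h2 : AcyP k T U) (hTS : T ⊆ S) (hUT : U ⊆ T) : AcyP k S U := by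
  intro n z hz hDz
  obtain ⟨y, hy, hzy⟩ := h1 n z hz (Chk_mono hUT n hDz)
  have h3 : D k (z - D k y) = D k z := by
    rw [map_sub, D_D hy, sub_zero]
  obtain ⟨y', hy', hzy'⟩ := h2 n (z - D k y) hzy (by rw [h3]; exact hDz)
  refine ⟨y + y', Submodule.add_mem _ hy (Chk_mono hTS _ hy'), ?_⟩
  rw [map_add, ← sub_sub]
  exact hzy'

end

end Pool.Agent.H2.EK
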