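import Pool.Agent.H2.EK.Cyl

/-!
# [H2 EK] the homology of the layers, the acyclic pair, the cycles
-/

set_option autoImplicit false

namespace Pool.Agent.H2.EK

open Finset

noncomputable section

open Rs Tl

variable {B : Type} {ℓ : ℕ} {w : B → Fin ℓ → Option (B × Bool)} {k : Type} [CommRing k]

section
variable {V : Type} [PartialOrder V] [DecidableEq V] {m : ℕ} (φ : Rs B m ↪o V)

theorem layer_pre {n : ℕ} {z : Finset V →₀ k} (hz : z ∈ Chk k (Set.range φ) n) (h0 : D k z = 0) :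
    ∃ z' ∈ Chk k (Set.univ : Set (Rs B m)) n, D k z' = 0 ∧ emF k φ z' = z := by
  obtain ⟨z', hz', rfl⟩ := emF_surj φ hz
  refine ⟨z', hz', emF_inj φ ?_, rfl⟩
  rw [← emF_D, h0, map_zero]

theorem layer_hom (n : ℕ) (hn : n ≠ 1) (z : Finset V →₀ k) (hz : z ∈ Chk k (Set.range φ) (n + 1)) (h0 : D k z = 0) :
    ∃ y ∈ Chk k (Set.range φ) (n + 2), D k y = z := by
  obtain ⟨z', hz', h1, rfl⟩ := layer_pre φ hz h0
  obtain ⟨y, hy, hy'⟩ := rose_hom n hn hz' h1
  refine ⟨emF k φ y, ?_, by rw [emF_D, hy']⟩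
  have := emF_mem φ hy
  rwa [Set.image_univ] at this

theorem layer_cyc [Fintype B] (hm : 0 < m) (z : Finset V →₀ k) (hz : z ∈ Chk k (Set.range φ) 2) (h0 : D k z = 0) :
    ∃ c : B → k, z = ∑ b, c b • emF k φ (cyc k b) := by
  obtain ⟨z', hz', h1, rfl⟩ := layer_pre φ hz h0
  obtain ⟨c, hc⟩ := rose_cyc hm hz' h1
  refine ⟨c, ?_⟩
  conv_lhs => rw [hc]
  rw [map_sum]
  exact Finset.sum_congr rfl fun b _ => map_smul _ _ _

theorem layer_uni [Fintype B] (hm : 0 < m) (c : B → k) (h : ∑ b, c b • emF k φ (cyc k b) = 0) : c = 0 := by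
  refine cyc_uni hm c (emF_inj φ ?_)
  rw [map_zero, map_sum, ← h]
  exact Finset.sum_congr rfl fun b _ => map_smul _ _ _

theorem layer_three {n : ℕ} (hn : 3 ≤ n) (z : Finset V →₀ k) (hz : z ∈ Chk k (Set.range φ) n) : z = 0 := by
  obtain ⟨z', hz', rfl⟩ := emF_surj φ hz
  rw [Chk_three hn hz', map_zero]

end

theorem hg0 (i : ℤ) (x : Rs B 1) (y : Rs B ℓ) : (c i x : Tl B ℓ w) ≤ f i y ↔ x ≤ wmap (w0 B ℓ) y := by
  rw [cf]
  constructor
  · rintro (⟨-, h⟩ | ⟨h, -⟩)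
    · exact h
    · omega
  · exact fun h => Or.inl ⟨rfl, h⟩

theorem hg1 (i : ℤ) (x : Rs B 1) (y : Rs B ℓ) : (c (i + 1) x : Tl B ℓ w) ≤ f i y ↔ x ≤ wmap w y := by
  rw [cf]
  constructor
  · rintro (⟨h, -⟩ | ⟨-, h⟩)
    · omega
    · exact h
  · exact fun h => Or.inr ⟨rfl, h⟩

/-- the prism for the first map -/
theorem prism0 (hℓ : 0 < ℓ) (i : ℤ) (b : B) : ∃ h ∈ Chk k ((C i : Set (Tl B ℓ w)) ∪ F i) 3,
    D k h = cF w k i b - cC w k i b := by
  obtain ⟨h, hm, hd⟩ := prism (k := k) i i (w0 B ℓ) (hg0 (w := w) i) b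
  refine ⟨h, hm, ?_⟩
  rw [hd, Finset.sum_eq_single (⟨0, hℓ⟩ : Fin ℓ)]
  · have : w0 B ℓ b ⟨0, hℓ⟩ = some (b, false) := if_pos rfl
    rw [this]
    simp [lsum]
  · intro j _ hj
    have : w0 B ℓ b j = none := if_neg fun h => hj (Fin.ext h)
    rw [this]
    rfl
  · exact fun h => absurd (mem_univ _) h

theorem pair_acyc [Fintype B] (hℓ : 0 < ℓ) : AcyP k ((C 0 : Set (Tl B ℓ w)) ∪ F 0 ∪ C 1) (C 1) := by
  have h1 : AcyP k ((C 0 : Set (Tl B ℓ w)) ∪ F 0) (C 0) := cyl 0 0 _ (hg0 0) (wmap_mono _)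
  have h2 : AcyP k ((C 0 : Set (Tl B ℓ w)) ∪ F 0) (F 0) :=
    swap (cC w k 0) (cF w k 0) h1 (layer_hom (ιF w 0)) (layer_hom (ιC w 0)) ⟨f 0 pt, pt, rfl⟩ (cF_mem 0) (cC_mem 0)
      (layer_cyc (ιF w 0) hℓ) (layer_cyc (ιC w 0) Nat.one_pos) (layer_uni (ιC w 0) Nat.one_pos)
      (layer_three (ιC w 0) le_rfl) (prism0 hℓ 0)
  have h3 : AcyP k ((C 0 : Set (Tl B ℓ w)) ∪ F 0 ∪ C 1) (F 0 ∪ C 1) := by
    refine excis h2 ?_
    rintro _ ⟨x, rfl⟩ _ ⟨y, rfl⟩
    constructor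
    · intro h
      have := (cc.1 h).1
      omega
    · intro h
      have := (cc.1 h).1
      omega
  have h4 : AcyP k ((F 0 : Set (Tl B ℓ w)) ∪ C 1) (C 1) := by
    rw [Set.union_comm]
    exact cyl 1 0 _ (hg1 0) (wmap_mono _)
  refine h3.trans h4 ?_ Set.subset_union_right
  rw [Set.union_assoc]
  exact Set.subset_union_right

/-- the two points are above everything -/
theorem top2 (S : Set (Tl B ℓ w)) (hS : ∀ x ∈ S, ∀ a, x ≠ s a) : Top2 S (s false) (s true) := by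
  have h : ∀ x ∈ S, ∀ a, x < s a := by
    intro x hx a
    refine lt_of_le_of_ne ?_ (hS x hx a)
    cases x with
    | c i x => exact cs
    | f i x => exact fs
    | s b => exact absurd rfl (hS _ hx b)
  exact ⟨fun x hx => h x hx _, fun x hx => h x hx _, (fun h => by cases ss.1 h), (fun h => by cases ss.1 h)⟩

theorem top2C (i : ℤ) : Top2 (C i : Set (Tl B ℓ w)) (s false) (s true) :=
  top2 _ (by rintro _ ⟨x, rfl⟩ a h; cases h)

theorem top2M : Top2 ((C 0 : Set (Tl B ℓ w)) ∪ F 0 ∪ C 1) (s false) (s true) :=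
  top2 _ (by rintro _ ((⟨x, rfl⟩ | ⟨x, rfl⟩) | ⟨x, rfl⟩) a h <;> cases h)

/-- the suspended cycles -/
def ζF (w : B → Fin ℓ → Option (B × Bool)) (k : Type) [CommRing k] (i : ℤ) (b : B) : Finset (Tl B ℓ w) →₀ k :=
  ins k (s false) (cC w k i b) - ins k (s true) (cC w k i b)

theorem ζF_mem (i : ℤ) (b : B) : ζF w k i b ∈ Chk k (C i ∪ {s false, s true}) 3 := by
  refine Submodule.sub_mem _ ((top2C i).ins_mem (cC_mem i b)) ?_
  have := (top2C (w := w) i).symm.ins_mem (cC_mem (k := k) i b)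
  rwa [Set.pair_comm] at this

theorem ζF_D (i : ℤ) (b : B) : D k (ζF w k i b) = 0 := by
  unfold ζF
  rw [susp_D (top2C i) (cC_mem i b), cC_D, map_zero, map_zero, sub_zero, neg_zero]

/-- the cycles in the top degree -/
theorem ζF_span [Fintype B] (i : ℤ) {z : Finset (Tl B ℓ w) →₀ k} (hz : z ∈ Chk k (C i ∪ {s false, s true}) 3)
    (h0 : D k z = 0) : ∃ c : B → k, z = ∑ b, c b • ζF w k i b := by
  obtain ⟨h1, h2, h3⟩ := susp_top (m := 1) (top2C (w := w) i) (layer_three (ιC w i) le_rfl) hz h0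
  obtain ⟨c, hc⟩ := layer_cyc (ιC w i) Nat.one_pos _ h1 h2
  refine ⟨c, ?_⟩
  rw [h3, hc]
  unfold ζF cC
  simp only [map_sum, map_smul, smul_sub, Finset.sum_sub_distrib]

theorem ζF_uni [Fintype B] (i : ℤ) (c : B → k) (h : ∑ b, c b • ζF w k i b = 0) : c = 0 := by
  refine layer_uni (ιC w i) Nat.one_pos c ?_
  have h1 := congrArg (rm k (s false)) h
  rw [map_zero, map_sum] at h1
  rw [← h1]
  refine Finset.sum_congr rfl fun b _ => ?_
  rw [map_smul]
  congr 1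
  unfold ζF
  rw [map_sub, rm_ins (top2C i).na (cC_mem i b), rm_ins' (top2C i).na (top2C i).ne (cC_mem i b), sub_zero]
  rfl

theorem emF_ins {V V' : Type} [PartialOrder V] [PartialOrder V'] [DecidableEq V] [DecidableEq V'] (φ : V ↪o V') (a : V)
    (z : Finset V →₀ k) : emF k φ (ins k a z) = ins k (φ a) (emF k φ z) := by
  classical
  have h : emF k φ ∘ₗ ins k a = ins k (φ a) ∘ₗ emF k φ := by
    refine Finsupp.lhom_ext' fun s => LinearMap.ext_ring ?_
    rw [LinearMap.comp_apply, LinearMap.comp_apply, LinearMap.comp_apply, LinearMap.comp_apply,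
      Finsupp.lsingle_apply, emF_single]
    by_cases ha : a ∈ s
    · rw [ins_single_mem ha, ins_single_mem, map_zero]
      exact mem_map_of_mem φ.toEmbedding ha
    · have ha' : φ a ∉ s.map φ.toEmbedding := fun h => ha ((mem_map' φ.toEmbedding).1 h)
      rw [ins_single ha, ins_single ha', map_smul, emF_single, map_insert]
      congr 1
      unfold sg
      rw [filter_map, card_map]
      congr 2
      ext x
      rw [mem_filter, mem_filter]
      exact and_congr_right fun _ => (φ.lt_iff_lt).symm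
  exact congrArg (fun g => g z) h

theorem emF_pair {V V' : Type} [PartialOrder V] [PartialOrder V'] [DecidableEq V] [DecidableEq V'] (φ : V ↪o V')
    (x y : V) (a : k) : emF k φ (Finsupp.single {x, y} a) = Finsupp.single {φ x, φ y} a := by
  rw [emF_single, map_insert, map_singleton]
  rfl

theorem cC_eq (i : ℤ) (b : B) : cC w k i b =
    ∑ j, ∑ ε, ∑ τ, se k ε τ • Finsupp.single {c i (lo b j ε τ), c i (ed b j ε)} (1 : k) := by
  unfold cC cyc
  simp only [map_sum, map_smul]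
  refine Finset.sum_congr rfl fun j _ => Finset.sum_congr rfl fun ε _ => Finset.sum_congr rfl fun τ _ => ?_
  unfold inc
  rw [emF_pair]
  rfl

theorem emF_cC (φ : Tl B ℓ w ↪o Tl B ℓ w) (g : B → B) (i i' : ℤ) (hφ : ∀ x, φ (c i x) = c i' (x.mp g)) (b : B) :
    emF k φ (cC w k i b) = cC w k i' (g b) := by
  rw [cC_eq, cC_eq]
  simp only [map_sum, map_smul]
  refine Finset.sum_congr rfl fun j _ => Finset.sum_congr rfl fun ε _ => Finset.sum_congr rfl fun τ _ => ?_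
  rw [emF_pair, hφ, hφ]
  have h : (lo b j ε τ : Rs B 1).mp g = lo (g b) j ε τ := by
    cases τ
    · exact mp_en g b _
    · rfl
  rw [h]
  rfl

theorem emF_ζF (φ : Tl B ℓ w ↪o Tl B ℓ w) (g : B → B) (i i' : ℤ) (hφ : ∀ x, φ (c i x) = c i' (x.mp g))
    (hs : ∀ a, φ (s a) = s a) (b : B) : emF k φ (ζF w k i b) = ζF w k i' (g b) := by
  unfold ζF
  rw [map_sub, emF_ins, emF_ins, hs, hs, emF_cC φ g i i' hφ]

/-- the relation in the block -/
theorem rel_cyc (hℓ : 0 < ℓ) (b : B) : ∃ y ∈ Chk k ((C 0 : Set (Tl B ℓ w)) ∪ F 0 ∪ C 1) 3,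
    D k y = cC w k 0 b - ∑ j, lsum w k 1 (w b j) := by
  obtain ⟨h0, hm0, hd0⟩ := prism0 (k := k) (w := w) hℓ 0 b
  obtain ⟨h1, hm1, hd1⟩ := prism (k := k) 1 0 w (hg1 (w := w) 0) b
  refine ⟨h1 - h0, Submodule.sub_mem _ (Chk_mono ?_ _ hm1) (Chk_mono Set.subset_union_left _ hm0), ?_⟩
  · rintro x (hx | hx)
    · exact Or.inr hx
    · exact Or.inl (Or.inr hx)
  · rw [map_sub, hd0, hd1]
    abel

theorem rel_ζF (hℓ : 0 < ℓ) (b : B) : ∃ y ∈ Chk k ((C 0 : Set (Tl B ℓ w)) ∪ F 0 ∪ C 1 ∪ {s false, s true}) 4,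
    D k y = ζF w k 0 b - (ins k (s false) (∑ j, lsum w k 1 (w b j)) - ins k (s true) (∑ j, lsum w k 1 (w b j))) := by
  obtain ⟨y, hy, hd⟩ := rel_cyc (k := k) (w := w) hℓ b
  refine ⟨-(ins k (s false) y - ins k (s true) y), Submodule.neg_mem _ (Submodule.sub_mem _ (top2M.ins_mem hy) ?_), ?_⟩
  · have := (top2M (w := w)).symm.ins_mem hy
    rwa [Set.pair_comm] at this
  · rw [map_neg, susp_D top2M hy, hd, neg_neg]
    unfold ζF
    simp only [map_sub]
    abel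

end

end Pool.Agent.H2.EK
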