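import Pool.Agent.H2.EK.Fs
import Pool.Agent.H59.FS.Twr

/-!
# [H2 EK] chains as strictly monotone maps and as finite sets
-/

set_option autoImplicit false

namespace Pool.Agent.H2.EK

open Finset Pool.Agent.H59.FS

noncomputable section

variable {V : Type} [PartialOrder V] {k : Type} [CommRing k]

/-- the set of the elements of a chain -/
def cset {n : ℕ} (s : Chn V n) : Finset V := Finset.univ.map ⟨s.1, s.2.injective⟩

theorem coe_cset {n : ℕ} (s : Chn V n) : (cset s : Set V) = Set.range s.1 := by
  unfold cset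
  rw [coe_map, coe_univ, Set.image_univ]
  rfl

theorem mem_cset {n : ℕ} (s : Chn V n) (v : V) : v ∈ cset s ↔ ∃ i, s.1 i = v := by
  rw [← mem_coe, coe_cset]
  exact Iff.rfl

theorem cset_inj {n : ℕ} : Function.Injective (cset : Chn V n → Finset V) := by
  intro s u h
  apply Subtype.ext
  refine (StrictMono.range_inj s.2 u.2).1 ?_
  rw [← coe_cset, ← coe_cset, h]

theorem card_cset {n : ℕ} (s : Chn V n) : (cset s).card = n := by
  unfold cset
  rw [card_map, card_univ, Fintype.card_fin]

theorem chain_cset {n : ℕ} (s : Chn V n) : IsChain (· ≤ ·) (cset s : Set V) := by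
  rw [coe_cset]
  rintro _ ⟨i, rfl⟩ _ ⟨j, rfl⟩ _
  rcases le_total i j with h | h
  · exact Or.inl (s.2.monotone h)
  · exact Or.inr (s.2.monotone h)

theorem cset_surj {n : ℕ} (u : Finset V) (hu : IsChain (· ≤ ·) (u : Set V)) (hn : u.card = n) :
    ∃ s : Chn V n, cset s = u := by
  classical
  let _ : LinearOrder u := 
    { (inferInstance : PartialOrder u) with
      le_total := fun a b => hu.total a.2 b.2
      toDecidableLE := Classical.decRel _ }
  have hc : Fintype.card u = n := by rw [Fintype.card_coe, hn]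
  let f := Fintype.orderIsoFinOfCardEq u hc
  have hf : StrictMono (fun i => ((f i : u) : V)) := fun i j hij => by
    have := f.strictMono hij
    exact this
  refine ⟨⟨fun i => ((f i : u) : V), hf⟩, ?_⟩
  ext v
  rw [mem_cset]
  constructor
  · rintro ⟨i, rfl⟩
    exact (f i).2
  · intro hv
    exact ⟨f.symm ⟨v, hv⟩, by simp⟩

variable [DecidableEq V]

theorem cset_del {n : ℕ} (s : Chn V (n + 1)) (i : Fin (n + 1)) : cset (s.del i) = (cset s).erase (s.1 i) := by
  ext v
  rw [mem_erase, mem_cset, mem_cset]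
  constructor
  · rintro ⟨j, rfl⟩
    refine ⟨fun h => ?_, i.succAbove j, rfl⟩
    exact Fin.succAbove_ne i j (s.2.injective h)
  · rintro ⟨h, j, rfl⟩
    have hji : j ≠ i := fun e => h (by rw [e])
    obtain ⟨l, rfl⟩ := Fin.exists_succAbove_eq hji
    exact ⟨l, rfl⟩

theorem sg_cset {n : ℕ} (s : Chn V n) (i : Fin n) : sg k (s.1 i) (cset s) = (-1) ^ (i : ℕ) := by
  classical
  unfold sg cset
  rw [filter_map, card_map]
  congr 1
  have : (Finset.univ.filter ((fun x => x < s.1 i) ∘ ⇑(⟨s.1, s.2.injective⟩ : Fin n ↪ V))) = Finset.Iio i := by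
    ext j
    rw [mem_filter, mem_Iio]
    constructor
    · rintro ⟨-, h⟩
      exact s.2.lt_iff_lt.1 h
    · exact fun h => ⟨mem_univ _, s.2 h⟩
  calc _ = (Finset.Iio i).card := by rw [← this]
    _ = i := Fin.card_Iio i

variable (V k) in
/-- the map of chains -/
def toF (n : ℕ) : (Chn V n →₀ k) →ₗ[k] (Finset V →₀ k) := Finsupp.lmapDomain k k cset

omit [DecidableEq V] in
theorem toF_single {n : ℕ} (s : Chn V n) (a : k) : toF V k n (Finsupp.single s a) = Finsupp.single (cset s) a := by
  unfold toF
  rw [Finsupp.lmapDomain_apply, Finsupp.mapDomain_single]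

omit [DecidableEq V] in
theorem toF_inj {n : ℕ} : Function.Injective (toF V k n) := by
  unfold toF
  exact Finsupp.mapDomain_injective cset_inj

theorem toF_bdc {n : ℕ} (z : Chn V (n + 1) →₀ k) : D k (toF V k (n + 1) z) = toF V k n (bdc V k n z) := by
  have h : D k ∘ₗ toF V k (n + 1) = toF V k n ∘ₗ bdc V k n := by
    refine Finsupp.lhom_ext' fun s => LinearMap.ext_ring ?_
    rw [LinearMap.comp_apply, LinearMap.comp_apply, LinearMap.comp_apply, LinearMap.comp_apply,
      Finsupp.lsingle_apply, toF_single, D_single]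
    unfold bdc bdS
    rw [Finsupp.linearCombination_single, one_smul, map_sum]
    conv_lhs => unfold cset
    rw [sum_map]
    refine Finset.sum_congr rfl fun i _ => ?_
    rw [map_smul, toF_single, cset_del]
    have := sg_cset (k := k) s i
    unfold cset at this ⊢
    rw [← this]
    rfl
  exact congrArg (fun f => f z) h

omit [DecidableEq V] in
theorem toF_mem {n : ℕ} {W : Set V} {z : Chn V n →₀ k} : toF V k n z ∈ Chk k W n ↔ Inn W z := by
  classical
  have h1 : (toF V k n z).support = z.support.image cset := by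
    unfold toF
    rw [Finsupp.lmapDomain_apply]
    exact Finsupp.mapDomain_support_of_injective cset_inj z
  rw [mem_Chk, h1]
  constructor
  · intro h s hs i
    obtain ⟨-, h2, -⟩ := h (cset s) (mem_image_of_mem _ hs)
    exact h2 (by rw [coe_cset]; exact ⟨i, rfl⟩)
  · intro h u hu
    obtain ⟨s, hs, rfl⟩ := mem_image.1 hu
    refine ⟨chain_cset s, ?_, card_cset s⟩
    rw [coe_cset]
    rintro _ ⟨i, rfl⟩
    exact h s hs i

omit [DecidableEq V] in
theorem toF_surj {n : ℕ} {W : Set V} {y : Finset V →₀ k} (hy : y ∈ Chk k W n) :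
    ∃ z : Chn V n →₀ k, Inn W z ∧ toF V k n z = y := by
  have key : ∀ z ∈ Chk k W n, z ∈ LinearMap.range (toF V k n) := by
    intro z hz
    classical
    exact map_Chk (S := W) (n := n) (LinearMap.id : (Finset V →₀ k) →ₗ[k] (Finset V →₀ k))
      (LinearMap.range (toF V k n)) (fun s h1 h2 h3 => by
        obtain ⟨u, hu⟩ := cset_surj s h1 h3
        exact ⟨Finsupp.single u 1, by rw [toF_single, hu]; rfl⟩) hz
  obtain ⟨z, hz⟩ := key y hy
  exact ⟨z, toF_mem.1 (by rw [hz]; exact hy), hz⟩

variable {V' : Type} [PartialOrder V']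

omit [DecidableEq V] in
theorem toF_map {n : ℕ} (f : V → V') (hf : StrictMono f) (hi : Function.Injective f) (z : Chn V n →₀ k) :
    toF V' k n (Finsupp.mapDomain (Chn.map f hf) z) = Finsupp.mapDomain (Finset.map ⟨f, hi⟩) (toF V k n z) := by
  unfold toF
  rw [Finsupp.lmapDomain_apply, Finsupp.lmapDomain_apply, ← Finsupp.mapDomain_comp, ← Finsupp.mapDomain_comp]
  congr 1
  funext s
  rw [Function.comp_apply, Function.comp_apply]
  unfold cset
  rw [map_map]
  rfl

end

end Pool.Agent.H2.EK
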