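import Mathlib

/-!
# [H2 EK] words with given exponents
-/

set_option autoImplicit false

namespace Pool.Agent.H2.EK

open Finset

noncomputable section

variable {B : Type}

open Classical in
/-- the exponent of `b` in a letter -/
def lv : Option (B × Bool) → B → ℤ
  | none, _ => 0
  | some o, b => if o.1 = b then (if o.2 then -1 else 1) else 0

theorem exists_list [Fintype B] (E : B → ℤ) : ∃ L : List (B × Bool), ∀ b, (L.map fun o => lv (some o) b).sum = E b := by
  classical
  have key : ∀ s : Finset B, ∃ L : List (B × Bool), ∀ b, (L.map fun o => lv (some o) b).sum = if b ∈ s then E b else 0 := by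
    intro s
    induction s using Finset.induction_on with
    | empty => exact ⟨[], fun b => by simp⟩
    | insert a s ha ih =>
      obtain ⟨L, hL⟩ := ih
      refine ⟨List.replicate (E a).natAbs (a, decide (E a < 0)) ++ L, fun b => ?_⟩
      rw [List.map_append, List.sum_append, hL, List.map_replicate, List.sum_replicate]
      by_cases hab : a = b
      · subst hab
        rw [if_neg ha, if_pos (mem_insert_self _ _), add_zero]
        simp only [lv, if_true, nsmul_eq_mul]
        by_cases h : E a < 0
        · simp only [h, decide_true, if_true]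
          omega
        · simp only [h, decide_false, Bool.false_eq_true, if_false]
          omega
      · have h1 : lv (some (a, decide (E a < 0))) b = 0 := by
          simp only [lv]
          rw [if_neg hab]
        rw [h1, smul_zero, zero_add]
        have h2 : b ∈ insert a s ↔ b ∈ s := by
          rw [mem_insert]
          exact ⟨fun h => h.resolve_left fun e => hab e.symm, Or.inr⟩
        simp only [h2]
  obtain ⟨L, hL⟩ := key Finset.univ
  exact ⟨L, fun b => by rw [hL, if_pos (mem_univ b)]⟩

theorem sum_getElem (L : List (B × Bool)) (b : B) (n : ℕ) (h : L.length ≤ n) :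
    ∑ i : Fin n, lv (L[i.1]?) b = (L.map fun o => lv (some o) b).sum := by
  induction L generalizing n with
  | nil => simp [lv]
  | cons a L ih =>
    obtain ⟨m, rfl⟩ : ∃ m, n = m + 1 := ⟨n - 1, by rw [List.length_cons] at h; omega⟩
    rw [Fin.sum_univ_succ, List.map_cons, List.sum_cons, ← ih m (by rw [List.length_cons] at h; omega)]
    rfl

theorem exists_words [Fintype B] (r : ℕ) (E : Fin r → B → ℤ) : ∃ (ℓ : ℕ) (_ : 0 < ℓ) (v : Fin r → Fin ℓ → Option (B × Bool)),
    ∀ j b, ∑ i, lv (v j i) b = E j b := by
  choose L hL using fun j => exists_list (E j)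
  refine ⟨(∑ j, (L j).length) + 1, Nat.succ_pos _, fun j i => (L j)[i.1]?, fun j b => ?_⟩
  rw [sum_getElem, hL]
  have : (L j).length ≤ ∑ j, (L j).length := Finset.single_le_sum (f := fun j => (L j).length) (fun _ _ => Nat.zero_le _)
    (mem_univ j)
  omega

end

end Pool.Agent.H2.EK
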