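import Pool.Agent.H2.EK.Lay
import Pool.Agent.H2.EK.Tr
import Pool.Agent.H2.EK.Wds

/-!
# [H2 EK] MP_5c3080_gt, chapter (E): towers exist
-/

set_option autoImplicit false

namespace Pool.Agent.H2.EK

open Finset Pool.Agent.H59.FS

noncomputable section

open Rs Tl

section
variable {B : Type} {ℓ : ℕ} {w : B → Fin ℓ → Option (B × Bool)}

theorem W_eq : (M (-1) ∩ M 0 : Set (Tl B ℓ w)) = C 0 ∪ {s false, s true} := by
  ext v
  cases v with
  | c i x =>
    constructor
    · rintro ⟨h1, h2⟩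
      have h1 : i = -1 ∨ i = -1 + 1 := h1
      have h2 : i = 0 ∨ i = 0 + 1 := h2
      have : i = 0 := by omega
      subst this
      exact Or.inl ⟨x, rfl⟩
    · rintro (⟨y, h⟩ | h | h)
      · injection h with h _
        subst h
        exact ⟨Or.inr (by norm_num), Or.inl rfl⟩
      · cases h
      · cases h
  | f i x =>
    constructor
    · rintro ⟨h1, h2⟩
      have h1 : i = -1 := h1
      have h2 : i = 0 := h2
      omega
    · rintro (⟨y, h⟩ | h | h) <;> cases h
  | s a =>
    constructor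
    · intro _
      cases a
      · exact Or.inr (Or.inl rfl)
      · exact Or.inr (Or.inr rfl)
    · intro _
      exact ⟨trivial, trivial⟩

theorem M0_eq : (M 0 : Set (Tl B ℓ w)) = C 0 ∪ F 0 ∪ C 1 ∪ {s false, s true} := by
  ext v
  cases v with
  | c i x =>
    constructor
    · intro h2
      have h2 : i = 0 ∨ i = 0 + 1 := h2
      rcases h2 with rfl | rfl
      · exact Or.inl (Or.inl (Or.inl ⟨x, rfl⟩))
      · exact Or.inl (Or.inr ⟨x, rfl⟩)
    · rintro (((⟨y, h⟩ | ⟨y, h⟩) | ⟨y, h⟩) | h | h)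
      · injection h with h _
        exact Or.inl h.symm
      · cases h
      · injection h with h _
        exact Or.inr h.symm
      · cases h
      · cases h
  | f i x =>
    constructor
    · intro h2
      have h2 : i = 0 := h2
      subst h2
      exact Or.inl (Or.inl (Or.inr ⟨x, rfl⟩))
    · rintro (((⟨y, h⟩ | ⟨y, h⟩) | ⟨y, h⟩) | h | h)
      · cases h
      · injection h with h _
        exact h.symm
      · cases h
      · cases h
      · cases h
  | s a =>
    constructor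
    · intro _
      cases a
      · exact Or.inr (Or.inl rfl)
      · exact Or.inr (Or.inr rfl)
    · intro _
      trivial

theorem M01_eq : (M 0 ∩ M 1 : Set (Tl B ℓ w)) = C 1 ∪ {s false, s true} := by
  ext v
  cases v with
  | c i x =>
    constructor
    · rintro ⟨h1, h2⟩
      have h1 : i = 0 ∨ i = 0 + 1 := h1
      have h2 : i = 1 ∨ i = 1 + 1 := h2
      have : i = 1 := by omega
      subst this
      exact Or.inl ⟨x, rfl⟩
    · rintro (⟨y, h⟩ | h | h)
      · injection h with h _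
        subst h
        exact ⟨Or.inr (by norm_num), Or.inl rfl⟩
      · cases h
      · cases h
  | f i x =>
    constructor
    · rintro ⟨h1, h2⟩
      have h1 : i = 0 := h1
      have h2 : i = 1 := h2
      omega
    · rintro (⟨y, h⟩ | h | h) <;> cases h
  | s a =>
    constructor
    · intro _
      cases a
      · exact Or.inr (Or.inl rfl)
      · exact Or.inr (Or.inr rfl)
    · intro _
      exact ⟨trivial, trivial⟩

theorem rose_con {m : ℕ} (g : Rs B m → Prop) (hg : ∀ x y, x < y → (g x ↔ g y)) (x : Rs B m) : g x ↔ g pt := by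
  have hen : ∀ (b : B) (n : ℕ), n ≤ m → (g (en b n) ↔ g pt) := by
    intro b n
    induction n with
    | zero =>
      intro _
      rw [en_zero]
    | succ n ih =>
      intro hn
      have h1 := hg _ _ (en_lt b ⟨n, by omega⟩ false)
      have h2 := hg _ _ (md_lt b ⟨n, by omega⟩ false)
      have h3 := hg _ _ (md_lt b ⟨n, by omega⟩ true)
      have h4 := hg _ _ (en_lt b ⟨n, by omega⟩ true)
      exact h4.trans (h3.symm.trans (h2.trans (h1.symm.trans (ih (by omega)))))
  cases x with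
  | pt => exact Iff.rfl
  | jc b n =>
    have := hen b n.1 n.2.2.le
    unfold en at this
    rwa [dif_pos n.2] at this
  | md b j =>
    rw [hg _ _ (md_lt b j false), ← hg _ _ (en_lt b j false)]
    exact hen b j.1 j.2.le
  | ed b j ε =>
    rw [← hg _ _ (en_lt b j ε)]
    exact hen b (j.1 + ε.toNat) (by have := j.2; cases ε <;> simp only [Bool.toNat] <;> simp <;> omega)

theorem con0' (g : Tl B ℓ w → Prop) (hg : ∀ v u, v ∈ M 0 → u ∈ M 0 → u ≠ s false → u ≠ s true → v < u → (g v ↔ g u))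
    (v : Tl B ℓ w) (hv : v ∈ M 0) (h1 : v ≠ s false) (h2 : v ≠ s true) : g v ↔ g (f 0 pt) := by
  have hc0 : ∀ x : Rs B 1, (c 0 x : Tl B ℓ w) ∈ M 0 := fun x => Or.inl rfl
  have hc1 : ∀ x : Rs B 1, (c 1 x : Tl B ℓ w) ∈ M 0 := fun x => Or.inr rfl
  have hf : ∀ x : Rs B ℓ, (f 0 x : Tl B ℓ w) ∈ M 0 := fun x => rfl
  have e0 : g (c 0 pt) ↔ g (f 0 pt) := hg _ _ (hc0 _) (hf _) (fun h => by cases h) (fun h => by cases h)
    (lt_of_le_of_ne ((hg0 0 _ _).2 le_rfl) (fun h => by cases h))
  have e1 : g (c 1 pt) ↔ g (f 0 pt) := hg _ _ (hc1 _) (hf _) (fun h => by cases h) (fun h => by cases h)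
    (lt_of_le_of_ne ((hg1 0 _ _).2 le_rfl) (fun h => by cases h))
  cases v with
  | c i x =>
    have hv : i = 0 ∨ i = 0 + 1 := hv
    rcases hv with rfl | rfl
    · rw [← e0]
      exact rose_con (fun y => g (c 0 y)) (fun x y hxy => hg _ _ (hc0 _) (hc0 _) (fun h => by cases h) (fun h => by cases h)
        ((ιC w 0).lt_iff_lt.2 hxy)) x
    · rw [← e1]
      exact rose_con (fun y => g (c 1 y)) (fun x y hxy => hg _ _ (hc1 _) (hc1 _) (fun h => by cases h) (fun h => by cases h)
        ((ιC w 1).lt_iff_lt.2 hxy)) x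
  | f i x =>
    have hv : i = 0 := hv
    subst hv
    exact rose_con (fun y => g (f 0 y)) (fun x y hxy => hg _ _ (hf _) (hf _) (fun h => by cases h) (fun h => by cases h)
        ((ιF w 0).lt_iff_lt.2 hxy)) x
  | s a =>
    cases a
    · exact absurd rfl h1
    · exact absurd rfl h2

end

section
variable {V : Type} [PartialOrder V] [DecidableEq V] {k : Type} [CommRing k]

theorem tr_acyc {S T : Set V} (h : AcyP k S T) (n : ℕ) (z : Chn V (n + 1) →₀ k) (hz : Inn S z)
    (hD : Inn T (bdc V k n z)) : ∃ y : Chn V (n + 2) →₀ k, Inn S y ∧ Inn T (z - bdc V k (n + 1) y) := by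
  obtain ⟨y, hy, hzy⟩ := h n (toF V k (n + 1) z) (toF_mem.2 hz) (by rw [toF_bdc]; exact toF_mem.2 hD)
  obtain ⟨y', hy', rfl⟩ := toF_surj hy
  refine ⟨y', hy', toF_mem.1 ?_⟩
  rw [map_sub, ← toF_bdc]
  exact hzy

theorem tr_hom {S : Set V} {n : ℕ} (h : ∀ z ∈ Chk k S (n + 1), D k z = 0 → ∃ y ∈ Chk k S (n + 2), D k y = z)
    (z : Chn V (n + 1) →₀ k) (hz : Inn S z) (hD : bdc V k n z = 0) :
    ∃ y : Chn V (n + 2) →₀ k, Inn S y ∧ bdc V k (n + 1) y = z := by
  obtain ⟨y, hy, hzy⟩ := h (toF V k (n + 1) z) (toF_mem.2 hz) (by rw [toF_bdc, hD, map_zero])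
  obtain ⟨y', hy', rfl⟩ := toF_surj hy
  refine ⟨y', hy', toF_inj ?_⟩
  rw [← toF_bdc, hzy]

end

section
variable {P : Type} [Group P] {r ℓ : ℕ}

/-- the action on the petals -/
local instance actB : MulAction P (P × Fin r) where
  smul q b := (q * b.1, b.2)
  one_smul b := by
    change (1 * b.1, b.2) = b
    rw [one_mul]
  mul_smul p q b := by
    change (p * q * b.1, b.2) = (p * (q * b.1), b.2)
    rw [mul_assoc]

theorem smulB (q : P) (b : P × Fin r) : q • b = (q * b.1, b.2) := rfl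

/-- the words -/
def wd (v : Fin r → Fin ℓ → Option ((P × Fin r) × Bool)) (b : P × Fin r) (i : Fin ℓ) : Option ((P × Fin r) × Bool) :=
  (v b.2 i).map fun c => (b.1 • c.1, c.2)

theorem wd_smul (v : Fin r → Fin ℓ → Option ((P × Fin r) × Bool)) (q : P) (b : P × Fin r) (i : Fin ℓ) :
    wd v (q • b) i = (wd v b i).map (fun c => (q • c.1, c.2)) := by
  unfold wd
  rw [Option.map_map]
  congr 1
  funext c
  simp only [Function.comp_apply, smulB, mul_assoc]

variable {k : Type} [CommRing k]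

theorem sum_lsum [Fintype P] (v : Fin r → Fin ℓ → Option ((P × Fin r) × Bool)) (E : Fin r → Fin r → P → ℤ)
    (hv : ∀ j b, ∑ i, lv (v j i) b = E j b.2 b.1) (p : P) (j : Fin r) :
    ∑ i, lsum (wd v) k 1 (wd v (p, j) i) = ∑ i : Fin r, ∑ q : P, ((E j i q : ℤ) : k) • cC (wd v) k 1 (p * q, i) := by
  classical
  have h1 : ∀ o : Option ((P × Fin r) × Bool), lsum (wd v) k 1 (o.map fun c => (p • c.1, c.2)) =
      ∑ b : P × Fin r, ((lv o b : ℤ) : k) • cC (wd v) k 1 (p • b) := by
    intro o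
    rcases o with _ | ⟨b, σ⟩
    · simp [lsum, lv]
    · rw [Finset.sum_eq_single b]
      · simp only [Option.map_some, lsum, lv, if_true]
        cases σ <;> simp
      · intro b' _ hb
        simp only [lv]
        rw [if_neg (fun h => hb h.symm), Int.cast_zero, zero_smul]
      · exact fun h => absurd (mem_univ _) h
  have h2 : ∀ i, lsum (wd v) k 1 (wd v (p, j) i) = ∑ b : P × Fin r, ((lv (v j i) b : ℤ) : k) • cC (wd v) k 1 (p • b) :=
    fun i => h1 (v j i)
  rw [Finset.sum_congr rfl fun i _ => h2 i, Finset.sum_comm]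
  have h3 : ∀ b : P × Fin r, ∑ i, ((lv (v j i) b : ℤ) : k) • cC (wd v) k 1 (p • b) =
      ((E j b.2 b.1 : ℤ) : k) • cC (wd v) k 1 (p • b) := by
    intro b
    rw [← Finset.sum_smul, ← Int.cast_sum, hv]
  rw [Finset.sum_congr rfl fun b _ => h3 b, Fintype.sum_prod_type, Finset.sum_comm]
  rfl

/-- Towers exist for every matrix `e`. -/
theorem exists_tower (P : Type) [Group P] [Fintype P] (r : ℕ) (e : Fin r → Fin r → P → ℤ) : Nonempty (Tower P r e) := by
  classical
  obtain ⟨ℓ, hℓ, v, hv⟩ := exists_words (B := P × Fin r) r (fun j b => e j b.2 b.1)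
  let w := wd v
  let V := Tl (P × Fin r) ℓ w
  have hζ : ∀ (k : Type) [CommRing k] (b : P × Fin r), ζF w k 0 b ∈ Chk k (M (-1) ∩ M 0) 3 := by
    intro k _ b
    rw [W_eq]
    exact ζF_mem 0 b
  let ζ : ∀ (k : Type) [CommRing k], P × Fin r → (Chn V 3 →₀ k) := fun k _ b => (toF_surj (hζ k b)).choose
  have hζ1 : ∀ (k : Type) [CommRing k] (b : P × Fin r), Inn (M (-1) ∩ M 0) (ζ k b) := fun k _ b =>
    (toF_surj (hζ k b)).choose_spec.1
  have hζ2 : ∀ (k : Type) [CommRing k] (b : P × Fin r), toF V k 3 (ζ k b) = ζF w k 0 b := fun k _ b =>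
    (toF_surj (hζ k b)).choose_spec.2
  have htt : ∀ (k : Type) [CommRing k] (b : P × Fin r),
      toF V k 3 (Finsupp.mapDomain (Chn.map (tt : V ≃o V) (tt : V ≃o V).strictMono) (ζ k b)) = ζF w k 1 b := by
    intro k _ b
    rw [toF_map (tt : V ≃o V) (tt : V ≃o V).strictMono (tt : V ≃o V).injective, hζ2]
    exact emF_ζF (tt : V ≃o V).toOrderEmbedding id 0 1 (fun x => by rw [mp_id]; rfl) (fun a => rfl) b
  have hlt : ∀ u : V, u ≠ s false → u ≠ s true → u < s false ∧ u < s true := by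
    intro u h1 h2
    have h : u ≤ s false ∧ u ≤ s true := by
      cases u with
      | c i x => exact ⟨cs, cs⟩
      | f i x => exact ⟨fs, fs⟩
      | s a => cases a <;> contradiction
    exact ⟨lt_of_le_of_ne h.1 h1, lt_of_le_of_ne h.2 h2⟩
  refine ⟨{
    V := V
    ρ := rho (wd_smul v)
    t := tt
    comm := fun p u => sh_mpT _ 1 u
    M := M
    fin := fin_M 0
    M_t := mem_M_tt
    M_P := fun i p u => mpT_mem_M _ i u
    conv := conv
    cov := cov
    dim := dim
    dimW := fun s => dimW 0 s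
    sN := s false
    sS := s true
    s_ne := fun h => by cases h
    lt_s := hlt
    not_lt := ⟨(fun h => by cases ss.1 h.le), (fun h => by cases ss.1 h.le)⟩
    s_M := fun i => ⟨trivial, trivial⟩
    homW := ?_
    neW := ⟨c 0 pt, ⟨Or.inr rfl, Or.inl rfl⟩, (fun h => by cases h), (fun h => by cases h)⟩
    con0 := fun g hg u v hu hv hu1 hu2 hv1 hv2 => by
      have hg' : ∀ v u : V, v ∈ M 0 → u ∈ M 0 → u ≠ s false → u ≠ s true → v < u → (g v ↔ g u) := hg
      rw [con0' g hg' u hu hu1 hu2, con0' g hg' v hv hv1 hv2]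
    ζ := ζ
    ζW := fun k _ b => ⟨hζ1 k b, toF_inj (by rw [← toF_bdc, hζ2, ζF_D, map_zero])⟩
    ζP := ?_
    ζb := ?_
    rel := ?_
    hmg := ?_ }⟩
  · intro k _ n hn z hz h0
    refine tr_hom ?_ z hz h0
    clear h0 hz z
    intro z hz h0
    rw [W_eq] at hz ⊢
    refine susp_hom (top2C 0) (m := n) ?_ hz h0
    clear h0 hz z
    intro z hz h0
    rcases Nat.eq_zero_or_eq_succ_pred n with hn' | hn'
    · rw [hn'] at hz ⊢
      exact hom0 (S := (C 0 : Set V)) ⟨c 0 pt, pt, rfl⟩ hz
    · obtain ⟨m, rfl⟩ : ∃ m, n = m + 1 := ⟨_, hn'⟩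
      exact layer_hom (ιC w 0) m (by omega) z hz h0
  · intro k _ q p j
    refine toF_inj ?_
    rw [hζ2, toF_map _ _ (OrderIso.injective _), hζ2]
    exact (emF_ζF (k := k) ((rho (wd_smul v) q : V ≃o V).toOrderEmbedding) (fun b => q • b) 0 0 (fun x => rfl)
      (fun a => rfl) (p, j)).symm
  · intro k _ z hz h0
    have hz' := toF_mem.2 hz
    rw [W_eq] at hz'
    obtain ⟨c, hc⟩ := ζF_span 0 hz' (by rw [toF_bdc, h0, map_zero])
    have hc' : z = ∑ b, c b • ζ k b := by
      refine toF_inj ?_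
      rw [hc, map_sum]
      refine Finset.sum_congr rfl fun b _ => ?_
      rw [map_smul, hζ2]
    refine ⟨c, hc', fun c' hcc => ?_⟩
    have h2 : ∑ b, (c' b - c b) • ζF w k 0 b = 0 := by
      have h3 : ∑ b, c' b • ζF w k 0 b = ∑ b, c b • ζF w k 0 b := by
        have h4 : ∀ d : P × Fin r → k, z = ∑ b, d b • ζ k b → toF V k 3 z = ∑ b, d b • ζF w k 0 b := by
          intro d hd
          rw [hd, map_sum]
          exact Finset.sum_congr rfl fun b _ => by rw [map_smul, hζ2]
        rw [← h4 c' hcc, ← h4 c hc']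
      simp only [sub_smul, Finset.sum_sub_distrib]
      rw [h3, sub_self]
    have h5 := ζF_uni 0 (fun b => c' b - c b) h2
    funext b
    have := congrFun h5 b
    exact sub_eq_zero.1 this
  · intro k _ n z hz hD
    have h1 : AcyP k (M 0 : Set V) (M 0 ∩ M 1) := by
      rw [M01_eq, M0_eq]
      exact susp_AcyP top2M Set.subset_union_right (pair_acyc hℓ)
    exact tr_acyc h1 n z hz hD
  · intro k _ p j
    obtain ⟨y, hy, hd⟩ := rel_ζF (k := k) (w := w) hℓ (p, j)
    rw [← M0_eq] at hy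
    obtain ⟨y', hy', rfl⟩ := toF_surj hy
    refine ⟨y', hy', toF_inj ?_⟩
    rw [← toF_bdc, hd, map_sub, hζ2]
    congr 1
    rw [sum_lsum v e hv p j]
    simp only [map_sum, map_smul, ← Finset.sum_sub_distrib, ← smul_sub]
    refine Finset.sum_congr rfl fun i _ => Finset.sum_congr rfl fun q _ => ?_
    rw [htt]
    rfl

end

end

end Pool.Agent.H2.EK
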