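import Pool.Agent.H2.EK.Fs

/-!
# [H2 EK] roses, word maps, the telescope

`Rs B ℓ`: the barycentric subdivision of a rose with petals `B`, `ℓ` letters on each petal; the letter `j` of the petal `b`
has two edges `ed b j ε` with common end `md b j`, the other ends are `en b (j + ε)` (`en b 0 = en b ℓ = pt`).
`wmap w : Rs B ℓ → Rs B 1` sends the letter `j` of the petal `b` to the point (`w b j = none`) or to the petal `b'`
(`w b j = some (b', σ)`, reversed for `σ = true`).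
`Tl B ℓ w`: the telescope `... ← F^(i) → C^(i+1) ← F^(i+1) → ...` (`f0` to `C^(i)`, `wmap w` to `C^(i+1)`) with two elements
above everything.
-/

set_option autoImplicit false

namespace Pool.Agent.H2.EK

open Finset

noncomputable section

/-- the rose -/
inductive Rs (B : Type) (ℓ : ℕ) : Type
  | pt : Rs B ℓ
  | jc (b : B) (n : {n : ℕ // 0 < n ∧ n < ℓ}) : Rs B ℓ
  | md (b : B) (j : Fin ℓ) : Rs B ℓ
  | ed (b : B) (j : Fin ℓ) (ε : Bool) : Rs B ℓ

namespace Rs

variable {B : Type} {ℓ : ℕ}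

/-- the ends of the letters -/
def en (b : B) (n : ℕ) : Rs B ℓ := if h : 0 < n ∧ n < ℓ then jc b ⟨n, h⟩ else pt

/-- the elements which are not edges -/
def IsV : Rs B ℓ → Prop
  | ed _ _ _ => False
  | _ => True

theorem isV_en (b : B) (n : ℕ) : (en b n : Rs B ℓ).IsV := by
  unfold en
  split_ifs <;> trivial

theorem en_ne_ed (b : B) (n : ℕ) (b' : B) (j : Fin ℓ) (ε : Bool) : (en b n : Rs B ℓ) ≠ ed b' j ε := fun h => by
  have := isV_en (ℓ := ℓ) b n
  rw [h] at this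
  exact this

theorem en_zero (b : B) : (en b 0 : Rs B ℓ) = pt := by
  unfold en
  rw [dif_neg (by omega)]

theorem en_last (b : B) : (en b ℓ : Rs B ℓ) = pt := by
  unfold en
  rw [dif_neg (by omega)]

/-- incidence -/
def lt' (x y : Rs B ℓ) : Prop := ∃ b j ε, y = ed b j ε ∧ (x = en b (j.1 + ε.toNat) ∨ x = md b j)

theorem lt'.isV {x y : Rs B ℓ} (h : lt' x y) : x.IsV := by
  obtain ⟨b, j, ε, -, rfl | rfl⟩ := h
  · exact isV_en b _
  · trivial

theorem lt'.not_isV {x y : Rs B ℓ} (h : lt' x y) : ¬ y.IsV := by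
  obtain ⟨b, j, ε, rfl, -⟩ := h
  exact fun h => h

instance : PartialOrder (Rs B ℓ) where
  le x y := x = y ∨ lt' x y
  le_refl x := Or.inl rfl
  le_trans := by
    rintro x y z (rfl | h1) (rfl | h2)
    · exact Or.inl rfl
    · exact Or.inr h2
    · exact Or.inr h1
    · exact absurd h2.isV h1.not_isV
  le_antisymm := by
    rintro x y (rfl | h1) (h2 | h2)
    · rfl
    · rfl
    · exact h2.symm
    · exact absurd h2.isV h1.not_isV

theorem le_def {x y : Rs B ℓ} : x ≤ y ↔ x = y ∨ lt' x y := Iff.rfl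

theorem lt_def {x y : Rs B ℓ} : x < y ↔ lt' x y := by
  rw [lt_iff_le_and_ne, le_def]
  constructor
  · rintro ⟨rfl | h, hne⟩
    · exact absurd rfl hne
    · exact h
  · intro h
    refine ⟨Or.inr h, ?_⟩
    rintro rfl
    exact h.not_isV h.isV

theorem isV_of_lt {x y : Rs B ℓ} (h : x < y) : x.IsV := (lt_def.1 h).isV

theorem not_isV_of_lt {x y : Rs B ℓ} (h : x < y) : ¬ y.IsV := (lt_def.1 h).not_isV

theorem eq_of_le {x y : Rs B ℓ} (h : x ≤ y) (hy : y.IsV) : x = y := by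
  rcases le_def.1 h with h | h
  · exact h
  · exact absurd hy h.not_isV

theorem en_lt (b : B) (j : Fin ℓ) (ε : Bool) : en b (j.1 + ε.toNat) < ed b j ε :=
  lt_def.2 ⟨b, j, ε, rfl, Or.inl rfl⟩

theorem md_lt (b : B) (j : Fin ℓ) (ε : Bool) : md b j < ed b j ε :=
  lt_def.2 ⟨b, j, ε, rfl, Or.inr rfl⟩

instance : DecidableEq (Rs B ℓ) := Classical.decEq _

instance [Finite B] : Finite (Rs B ℓ) := by
  have : Finite {n : ℕ // 0 < n ∧ n < ℓ} := Finite.of_injective (β := Fin ℓ) (fun n => ⟨n.1, n.2.2⟩) (fun a b h => by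
    simpa [Subtype.ext_iff] using h)
  refine Finite.of_surjective (α := Option ((B × {n : ℕ // 0 < n ∧ n < ℓ}) ⊕ ((B × Fin ℓ) ⊕ (B × Fin ℓ × Bool))))
    (fun x => match x with
      | none => pt
      | some (Sum.inl x) => jc x.1 x.2
      | some (Sum.inr (Sum.inl x)) => md x.1 x.2
      | some (Sum.inr (Sum.inr x)) => ed x.1 x.2.1 x.2.2) ?_
  rintro (_ | ⟨b, n⟩ | ⟨b, j⟩ | ⟨b, j, ε⟩)
  · exact ⟨none, rfl⟩
  · exact ⟨some (Sum.inl (b, n)), rfl⟩
  · exact ⟨some (Sum.inr (Sum.inl (b, j))), rfl⟩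
  · exact ⟨some (Sum.inr (Sum.inr (b, j, ε))), rfl⟩

/-- the map induced by a map of the petals -/
def mp {B' : Type} (g : B → B') : Rs B ℓ → Rs B' ℓ
  | pt => pt
  | jc b n => jc (g b) n
  | md b j => md (g b) j
  | ed b j ε => ed (g b) j ε

theorem mp_en {B' : Type} (g : B → B') (b : B) (n : ℕ) : (en b n : Rs B ℓ).mp g = en (g b) n := by
  unfold en
  split_ifs <;> rfl

theorem mp_mono {B' : Type} (g : B → B') : Monotone (mp g : Rs B ℓ → Rs B' ℓ) := by
  rintro x y (rfl | ⟨b, j, ε, rfl, rfl | rfl⟩)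
  · exact le_rfl
  · rw [mp_en]
    exact (en_lt (g b) j ε).le
  · exact (md_lt (g b) j ε).le

theorem mp_id (x : Rs B ℓ) : x.mp id = x := by cases x <;> rfl

theorem mp_mp {B' B'' : Type} (g : B → B') (g' : B' → B'') (x : Rs B ℓ) : (x.mp g).mp g' = x.mp (g' ∘ g) := by
  cases x <;> rfl

theorem mp_isV {B' : Type} (g : B → B') (x : Rs B ℓ) : (x.mp g).IsV ↔ x.IsV := by cases x <;> rfl

end Rs

open Rs

variable {B : Type} {ℓ : ℕ}

/-- the middle of a letter -/
def mo : Option (B × Bool) → Rs B 1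
  | none => pt
  | some c => md c.1 0

/-- the edges of a letter -/
def eo (ε : Bool) : Option (B × Bool) → Rs B 1
  | none => pt
  | some c => ed c.1 0 (xor ε c.2)

/-- the map of a family of words -/
def wmap (w : B → Fin ℓ → Option (B × Bool)) : Rs B ℓ → Rs B 1
  | pt => pt
  | jc _ _ => pt
  | md b j => mo (w b j)
  | ed b j ε => eo ε (w b j)

theorem en_one (b : B) (n : ℕ) : (en b n : Rs B 1) = pt := by
  unfold en
  rw [dif_neg (by omega)]

theorem wmap_en (w : B → Fin ℓ → Option (B × Bool)) (b : B) (n : ℕ) : wmap w (en b n) = pt := by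
  unfold en
  split_ifs <;> rfl

theorem pt_lt_ed (b : B) (ε : Bool) : (pt : Rs B 1) < ed b 0 ε := by
  have := en_lt (ℓ := 1) b 0 ε
  rwa [en_one] at this

theorem pt_le_eo (ε : Bool) (o : Option (B × Bool)) : (pt : Rs B 1) ≤ eo ε o := by
  rcases o with _ | c
  · exact le_rfl
  · exact (pt_lt_ed _ _).le

theorem mo_le_eo (ε : Bool) (o : Option (B × Bool)) : mo o ≤ eo ε o := by
  rcases o with _ | c
  · exact le_rfl
  · exact (md_lt _ _ _).le

theorem mo_isV (o : Option (B × Bool)) : (mo o).IsV := by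
  rcases o with _ | c <;> trivial

theorem wmap_mono (w : B → Fin ℓ → Option (B × Bool)) : Monotone (wmap w) := by
  rintro x y (rfl | ⟨b, j, ε, rfl, rfl | rfl⟩)
  · exact le_rfl
  · rw [wmap_en]
    exact pt_le_eo _ _
  · exact mo_le_eo _ _

theorem wmap_isV (w : B → Fin ℓ → Option (B × Bool)) {x : Rs B ℓ} (h : x.IsV) : (wmap w x).IsV := by
  cases x with
  | pt => trivial
  | jc b n => trivial
  | md b j => exact mo_isV _
  | ed b j ε => exact absurd h (fun h => h)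

theorem mo_map (g : B → B) (o : Option (B × Bool)) : mo (o.map fun c => (g c.1, c.2)) = (mo o).mp g := by
  rcases o with _ | c <;> rfl

theorem eo_map (g : B → B) (ε : Bool) (o : Option (B × Bool)) :
    eo ε (o.map fun c => (g c.1, c.2)) = (eo ε o).mp g := by
  rcases o with _ | c <;> rfl

theorem wmap_mp (w : B → Fin ℓ → Option (B × Bool)) (g : B → B)
    (hg : ∀ b j, w (g b) j = (w b j).map (fun c => (g c.1, c.2))) (x : Rs B ℓ) :
    wmap w (x.mp g) = (wmap w x).mp g := by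
  cases x with
  | pt => rfl
  | jc b n => rfl
  | md b j => exact (congrArg mo (hg b j)).trans (mo_map g _)
  | ed b j ε => exact (congrArg (eo ε) (hg b j)).trans (eo_map g ε _)

/-- the word whose first letter is the petal itself -/
def w0 (B : Type) (ℓ : ℕ) (b : B) (j : Fin ℓ) : Option (B × Bool) := if j.1 = 0 then some (b, false) else none

theorem w0_mp (g : B → B) (b : B) (j : Fin ℓ) : w0 B ℓ (g b) j = (w0 B ℓ b j).map (fun c => (g c.1, c.2)) := by
  unfold w0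
  split_ifs <;> rfl

/-- the telescope with two points on top -/
inductive Tl (B : Type) (ℓ : ℕ) (w : B → Fin ℓ → Option (B × Bool)) : Type
  | c (i : ℤ) (x : Rs B 1) : Tl B ℓ w
  | f (i : ℤ) (x : Rs B ℓ) : Tl B ℓ w
  | s (a : Bool) : Tl B ℓ w

namespace Tl

variable {w : B → Fin ℓ → Option (B × Bool)}

/-- the order -/
def le' : Tl B ℓ w → Tl B ℓ w → Prop
  | c i x, c j y => i = j ∧ x ≤ y
  | c i x, f j y => (i = j ∧ x ≤ wmap (w0 B ℓ) y) ∨ (i = j + 1 ∧ x ≤ wmap w y)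
  | c _ _, s _ => True
  | f _ _, c _ _ => False
  | f i x, f j y => i = j ∧ x ≤ y
  | f _ _, s _ => True
  | s _, c _ _ => False
  | s _, f _ _ => False
  | s a, s b => a = b

instance : PartialOrder (Tl B ℓ w) where
  le := le'
  le_refl x := by
    cases x with
    | c i x => exact ⟨rfl, le_rfl⟩
    | f i x => exact ⟨rfl, le_rfl⟩
    | s a => exact rfl
  le_trans x y z h1 h2 := by
    cases x <;> cases y <;> cases z <;> simp only [le'] at h1 h2 ⊢ <;> try tauto
    · exact ⟨h1.1.trans h2.1, h1.2.trans h2.2⟩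
    · obtain ⟨rfl, h1⟩ := h1
      rcases h2 with ⟨h2, h3⟩ | ⟨h2, h3⟩
      · exact Or.inl ⟨h2, h1.trans h3⟩
      · exact Or.inr ⟨h2, h1.trans h3⟩
    · obtain ⟨rfl, h2⟩ := h2
      rcases h1 with ⟨h1, h3⟩ | ⟨h1, h3⟩
      · exact Or.inl ⟨h1, h3.trans (wmap_mono _ h2)⟩
      · exact Or.inr ⟨h1, h3.trans (wmap_mono _ h2)⟩
    · exact ⟨h1.1.trans h2.1, h1.2.trans h2.2⟩
    · exact h1.trans h2
  le_antisymm x y h1 h2 := by
    cases x <;> cases y <;> simp only [le'] at h1 h2 <;> try tauto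
    · rw [h1.1, le_antisymm h1.2 h2.2]
    · rw [h1.1, le_antisymm h1.2 h2.2]

instance : DecidableEq (Tl B ℓ w) := Classical.decEq _

@[simp] theorem cc {i j : ℤ} {x y : Rs B 1} : (c i x : Tl B ℓ w) ≤ c j y ↔ i = j ∧ x ≤ y := Iff.rfl
@[simp] theorem cf {i j : ℤ} {x : Rs B 1} {y : Rs B ℓ} : (c i x : Tl B ℓ w) ≤ f j y ↔
    (i = j ∧ x ≤ wmap (w0 B ℓ) y) ∨ (i = j + 1 ∧ x ≤ wmap w y) := Iff.rfl
@[simp] theorem cs {i : ℤ} {x : Rs B 1} {a : Bool} : (c i x : Tl B ℓ w) ≤ s a := trivial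
@[simp] theorem fc {i j : ℤ} {x : Rs B 1} {y : Rs B ℓ} : ¬ (f j y : Tl B ℓ w) ≤ c i x := fun h => h
@[simp] theorem ff {i j : ℤ} {x y : Rs B ℓ} : (f i x : Tl B ℓ w) ≤ f j y ↔ i = j ∧ x ≤ y := Iff.rfl
@[simp] theorem fs {i : ℤ} {x : Rs B ℓ} {a : Bool} : (f i x : Tl B ℓ w) ≤ s a := trivial
@[simp] theorem sc {i : ℤ} {x : Rs B 1} {a : Bool} : ¬ (s a : Tl B ℓ w) ≤ c i x := fun h => h
@[simp] theorem sf {i : ℤ} {x : Rs B ℓ} {a : Bool} : ¬ (s a : Tl B ℓ w) ≤ f i x := fun h => h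
@[simp] theorem ss {a b : Bool} : (s a : Tl B ℓ w) ≤ s b ↔ a = b := Iff.rfl

/-- the blocks -/
def M (i : ℤ) : Set (Tl B ℓ w) := {v | match v with
  | c j _ => j = i ∨ j = i + 1
  | f j _ => j = i
  | s _ => True}

/-- the layers -/
def C (i : ℤ) : Set (Tl B ℓ w) := Set.range (c i)

/-- the layers -/
def F (i : ℤ) : Set (Tl B ℓ w) := Set.range (f i)

/-- shift -/
def sh (n : ℤ) : Tl B ℓ w → Tl B ℓ w
  | c i x => c (i + n) x
  | f i x => f (i + n) x
  | s a => s a

/-- the map induced by a map of the petals -/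
def mpT (g : B → B) : Tl B ℓ w → Tl B ℓ w
  | c i x => c i (x.mp g)
  | f i x => f i (x.mp g)
  | s a => s a

end Tl

end

end Pool.Agent.H2.EK
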