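import Pool.Agent.H2.EK.Cone

/-!
# [H2 EK] suspension: two incomparable elements `a`, `b` above everything
-/

set_option autoImplicit false

namespace Pool.Agent.H2.EK

open Finset

noncomputable section

variable {V : Type} [PartialOrder V] [DecidableEq V] {k : Type} [CommRing k]

variable (k) in
/-- remove `a` -/
def rm (a : V) : (Finset V →₀ k) →ₗ[k] (Finset V →₀ k) :=
  Finsupp.linearCombination k fun s => if a ∈ s then sg k a (s.erase a) • Finsupp.single (s.erase a) (1 : k) else 0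

variable (k) in
/-- the part without `a` and `b` -/
def p0 (a b : V) : (Finset V →₀ k) →ₗ[k] (Finset V →₀ k) :=
  Finsupp.linearCombination k fun s => if a ∈ s ∨ b ∈ s then 0 else Finsupp.single s (1 : k)

theorem rm_pos {a : V} {s : Finset V} (h : a ∈ s) :
    rm k a (Finsupp.single s (1 : k)) = sg k a (s.erase a) • Finsupp.single (s.erase a) (1 : k) := by
  unfold rm
  rw [Finsupp.linearCombination_single, one_smul, if_pos h]

theorem rm_neg {a : V} {s : Finset V} (h : a ∉ s) : rm k a (Finsupp.single s (1 : k)) = 0 := by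
  unfold rm
  rw [Finsupp.linearCombination_single, one_smul, if_neg h]

theorem p0_pos {a b : V} {s : Finset V} (h : a ∈ s ∨ b ∈ s) : p0 k a b (Finsupp.single s (1 : k)) = 0 := by
  unfold p0
  rw [Finsupp.linearCombination_single, one_smul, if_pos h]

theorem p0_neg {a b : V} {s : Finset V} (h : ¬ (a ∈ s ∨ b ∈ s)) :
    p0 k a b (Finsupp.single s (1 : k)) = Finsupp.single s 1 := by
  unfold p0
  rw [Finsupp.linearCombination_single, one_smul, if_neg h]

/-- `a`, `b` are incomparable and above `S` -/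
structure Top2 (S : Set V) (a b : V) : Prop where
  ha : ∀ x ∈ S, x < a
  hb : ∀ x ∈ S, x < b
  ab : ¬ a ≤ b
  ba : ¬ b ≤ a

theorem Top2.symm {S : Set V} {a b : V} (h : Top2 S a b) : Top2 S b a := ⟨h.hb, h.ha, h.ba, h.ab⟩

theorem Top2.mono {S T : Set V} {a b : V} (h : Top2 S a b) (hT : T ⊆ S) : Top2 T a b :=
  ⟨fun x hx => h.ha x (hT hx), fun x hx => h.hb x (hT hx), h.ab, h.ba⟩

theorem Top2.na {S : Set V} {a b : V} (h : Top2 S a b) : a ∉ S := fun ha => lt_irrefl _ (h.ha a ha)

theorem Top2.ne {S : Set V} {a b : V} (h : Top2 S a b) : a ≠ b := fun e => h.ab e.le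

theorem Top2.not_both {S : Set V} {a b : V} (h : Top2 S a b) {s : Finset V} (hs : IsChain (· ≤ ·) (s : Set V))
    (ha : a ∈ s) : b ∉ s := fun hb => by
  rcases hs ha hb h.ne with h1 | h1
  · exact h.ab h1
  · exact h.ba h1

theorem Top2.erase_sub {S : Set V} {a b : V} (h : Top2 S a b) {s : Finset V} (hs : IsChain (· ≤ ·) (s : Set V))
    (h2 : (s : Set V) ⊆ S ∪ {a, b}) (ha : a ∈ s) : ((s.erase a : Finset V) : Set V) ⊆ S := by
  intro x hx
  have hx' : x ∈ s.erase a := hx
  rcases h2 (mem_of_mem_erase hx') with h3 | h3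
  · exact h3
  · rcases h3 with h3 | h3
    · exact absurd h3 (ne_of_mem_erase hx')
    · exact absurd (h3 ▸ mem_of_mem_erase hx' : b ∈ s) (h.not_both hs ha)

theorem rm_mem {S : Set V} {a b : V} (h : Top2 S a b) {m : ℕ} {z : Finset V →₀ k}
    (hz : z ∈ Chk k (S ∪ {a, b}) (m + 1)) : rm k a z ∈ Chk k S m := by
  refine map_Chk _ _ (fun s h1 h2 h3 => ?_) hz
  by_cases ha : a ∈ s
  · rw [rm_pos ha]
    refine Submodule.smul_mem _ _ (single_mem (h1.mono (by simp)) (h.erase_sub h1 h2 ha) ?_ _)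
    rw [card_erase_of_mem ha, h3]
    rfl
  · rw [rm_neg ha]
    exact Submodule.zero_mem _

theorem p0_mem {S : Set V} {a b : V} {m : ℕ} {z : Finset V →₀ k}
    (hz : z ∈ Chk k (S ∪ {a, b}) m) : p0 k a b z ∈ Chk k S m := by
  refine map_Chk _ _ (fun s h1 h2 h3 => ?_) hz
  by_cases ha : a ∈ s ∨ b ∈ s
  · rw [p0_pos ha]
    exact Submodule.zero_mem _
  · rw [p0_neg ha]
    refine single_mem h1 (fun x hx => (h2 hx).resolve_right ?_) h3 _
    rintro (rfl | rfl)
    · exact ha (Or.inl hx)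
    · exact ha (Or.inr hx)

/-- the decomposition -/
theorem decomp {S : Set V} {a b : V} (h : Top2 S a b) {m : ℕ} {z : Finset V →₀ k}
    (hz : z ∈ Chk k (S ∪ {a, b}) m) : z = p0 k a b z + ins k a (rm k a z) + ins k b (rm k b z) := by
  refine eq_Chk (k := k) (S := S ∪ {a, b}) (n := m) LinearMap.id
    (p0 k a b + ins k a ∘ₗ rm k a + ins k b ∘ₗ rm k b) (fun s h1 h2 h3 => ?_) hz
  simp only [LinearMap.id_apply, LinearMap.add_apply, LinearMap.comp_apply]
  have hi : ∀ c, c ∈ s → ins k c (rm k c (Finsupp.single s (1 : k))) = Finsupp.single s 1 := by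
    intro c hc
    rw [rm_pos hc, map_smul, ins_single (by simp), smul_smul, insert_erase hc, sg_mul_self, one_smul]
  by_cases ha : a ∈ s
  · rw [p0_pos (Or.inl ha), hi a ha, rm_neg (h.not_both h1 ha), map_zero, zero_add, add_zero]
  · by_cases hb : b ∈ s
    · rw [p0_pos (Or.inr hb), hi b hb, rm_neg ha, map_zero, zero_add, zero_add]
    · rw [p0_neg (by tauto), rm_neg ha, rm_neg hb, map_zero, map_zero, add_zero, add_zero]

theorem rm_ins {S : Set V} {a : V} (ha : a ∉ S) {m : ℕ} {z : Finset V →₀ k} (hz : z ∈ Chk k S m) :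
    rm k a (ins k a z) = z := by
  refine eq_Chk (k := k) (S := S) (n := m) (rm k a ∘ₗ ins k a) LinearMap.id (fun s _ h2 _ => ?_) hz
  have has : a ∉ s := fun h => ha (h2 h)
  rw [LinearMap.comp_apply, LinearMap.id_apply, ins_single has, map_smul, rm_pos (mem_insert_self a s), smul_smul,
    erase_insert has, sg_mul_self, one_smul]

theorem rm_zero {S : Set V} {a : V} (ha : a ∉ S) {m : ℕ} {z : Finset V →₀ k} (hz : z ∈ Chk k S m) :
    rm k a z = 0 := by
  refine eq_Chk (k := k) (S := S) (n := m) (rm k a) 0 (fun s _ h2 _ => ?_) hz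
  rw [rm_neg (fun h => ha (h2 h)), LinearMap.zero_apply]

theorem rm_ins' {S : Set V} {a b : V} (ha : a ∉ S) (hab : a ≠ b) {m : ℕ} {z : Finset V →₀ k} (hz : z ∈ Chk k S m) :
    rm k a (ins k b z) = 0 := by
  refine eq_Chk (k := k) (S := S) (n := m) (rm k a ∘ₗ ins k b) 0 (fun s _ h2 _ => ?_) hz
  rw [LinearMap.comp_apply, LinearMap.zero_apply]
  by_cases hbs : b ∈ s
  · rw [ins_single_mem hbs, map_zero]
  · rw [ins_single hbs, map_smul, rm_neg, smul_zero]
    rw [mem_insert]
    rintro (h | h)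
    · exact hab h
    · exact ha (h2 h)

theorem Top2.ins_mem {S : Set V} {a b : V} (h : Top2 S a b) {m : ℕ} {z : Finset V →₀ k} (hz : z ∈ Chk k S m) :
    ins k a z ∈ Chk k (S ∪ {a, b}) (m + 1) :=
  Chk_mono (by rintro x (rfl | hx) <;> simp_all) _ (Pool.Agent.H2.EK.ins_mem (fun x hx => Or.inl (h.ha x hx)) hz)

theorem Top2.sub {S : Set V} {a b : V} : S ⊆ S ∪ {a, b} := Set.subset_union_left

/-- cycles of the suspension, up to a boundary: `z ~ ins a c - ins b c` -/
theorem susp_cyc {S T : Set V} {a b : V} (h : Top2 S a b) (hT : T ⊆ S) {m : ℕ} {z : Finset V →₀ k}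
    (hz : z ∈ Chk k (S ∪ {a, b}) (m + 1)) (hD : D k z ∈ Chk k (T ∪ {a, b}) m) :
    (∀ m', m = m' + 1 → D k (rm k b z) ∈ Chk k T m') ∧
      z - D k (ins k a (p0 k a b z)) + (ins k a (rm k b z) - ins k b (rm k b z)) ∈ Chk k (T ∪ {a, b}) (m + 1) := by
  have hz0 := p0_mem hz
  have hza := rm_mem h hz
  have hzb := rm_mem h.symm (z := z) (by rwa [Set.pair_comm])
  have hTab := h.mono hT
  have hdec := decomp h hz
  have hD' : D k z = (D k (p0 k a b z) + rm k a z + rm k b z) - ins k a (D k (rm k a z)) - ins k b (D k (rm k b z)) := by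
    conv_lhs => rw [hdec]
    rw [map_add, map_add, D_ins (fun x hx => Or.inl (h.ha x hx)) hza, D_ins (fun x hx => Or.inl (h.hb x hx)) hzb]
    abel
  -- the part without a, b
  have hq : D k (p0 k a b z) + rm k a z + rm k b z ∈ Chk k S m :=
    Submodule.add_mem _ (Submodule.add_mem _ (D_mem hz0) hza) hzb
  have hp0 : ∀ w ∈ Chk k S m, p0 k a b w = w := fun w hw =>
    eq_Chk (k := k) (S := S) (n := m) (p0 k a b) LinearMap.id (fun s _ h2 _ => by
      rw [p0_neg, LinearMap.id_apply]
      rintro (h3 | h3)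
      · exact h.na (h2 h3)
      · exact h.symm.na (h2 h3)) hw
  have hp1 : ∀ (c : V), c = a ∨ c = b → ∀ w : Finset V →₀ k, p0 k a b (ins k c w) = 0 := by
    intro c hc w
    have : p0 k a b ∘ₗ ins k c = 0 := by
      refine Finsupp.lhom_ext' fun s => LinearMap.ext_ring ?_
      rw [LinearMap.comp_apply, LinearMap.comp_apply, Finsupp.lsingle_apply, LinearMap.zero_comp, LinearMap.zero_apply]
      by_cases hcs : c ∈ s
      · rw [ins_single_mem hcs, map_zero]
      · rw [ins_single hcs, map_smul, p0_pos, smul_zero]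
        rcases hc with rfl | rfl
        · exact Or.inl (mem_insert_self _ _)
        · exact Or.inr (mem_insert_self _ _)
    rw [← LinearMap.comp_apply, this, LinearMap.zero_apply]
  have h1 : D k (p0 k a b z) + rm k a z + rm k b z ∈ Chk k T m := by
    have h2 := p0_mem hD
    rw [hD', map_sub, map_sub, hp1 a (Or.inl rfl), hp1 b (Or.inr rfl), sub_zero, sub_zero, hp0 _ hq] at h2
    exact h2
  refine ⟨?_, ?_⟩
  · rintro m' rfl
    have h2 := rm_mem hTab.symm (z := D k z) (by rwa [Set.pair_comm])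
    rw [hD', map_sub, map_sub, rm_zero h.symm.na hq, rm_ins' h.symm.na h.ne.symm (D_mem hza), sub_zero, zero_sub,
      rm_ins h.symm.na (D_mem hzb)] at h2
    simpa using Submodule.neg_mem _ h2
  · have h2 : z - D k (ins k a (p0 k a b z)) + (ins k a (rm k b z) - ins k b (rm k b z)) =
        ins k a (D k (p0 k a b z) + rm k a z + rm k b z) := by
      have h6 : z - p0 k a b z - ins k b (rm k b z) = ins k a (rm k a z) := by
        rw [sub_sub, sub_eq_iff_eq_add]
        exact hdec.trans (by abel)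
      rw [D_ins (fun x hx => Or.inl (h.ha x hx)) hz0, map_add, map_add, ← h6]
      abel
    rw [h2]
    exact hTab.ins_mem h1

/-- the suspension of an acyclic pair -/
theorem susp_AcyP {S T : Set V} {a b : V} (h : Top2 S a b) (hT : T ⊆ S) (hA : AcyP k S T) :
    AcyP k (S ∪ {a, b}) (T ∪ {a, b}) := by
  intro m z hz hD
  obtain ⟨h1, h2⟩ := susp_cyc h hT hz hD
  have hz0 := p0_mem hz
  have hzb := rm_mem h.symm (z := z) (by rwa [Set.pair_comm])
  have hTab := h.mono hT
  -- `rm b z = D y + w`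
  have h3 : ∃ y ∈ Chk k S (m + 1), rm k b z - D k y ∈ Chk k T m := by
    rcases Nat.eq_zero_or_eq_succ_pred m with hm | hm
    · subst hm
      refine ⟨0, Submodule.zero_mem _, ?_⟩
      rw [map_zero, sub_zero]
      rw [mem_Chk] at hzb ⊢
      refine fun s hs => ⟨(hzb s hs).1, ?_, (hzb s hs).2.2⟩
      rw [card_eq_zero.1 (hzb s hs).2.2]
      simp
    · obtain ⟨m', rfl⟩ : ∃ m', m = m' + 1 := ⟨_, hm⟩
      exact hA m' _ hzb (h1 m' rfl)
  obtain ⟨y, hy, hy'⟩ := h3
  refine ⟨ins k a (p0 k a b z) + (ins k a y - ins k b y), ?_, ?_⟩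
  · refine Submodule.add_mem _ (h.ins_mem hz0) (Submodule.sub_mem _ (h.ins_mem hy) ?_)
    have := h.symm.ins_mem hy
    rwa [Set.pair_comm] at this
  · have h4 : z - D k (ins k a (p0 k a b z) + (ins k a y - ins k b y)) =
        (z - D k (ins k a (p0 k a b z)) + (ins k a (rm k b z) - ins k b (rm k b z))) -
        (ins k a (rm k b z - D k y) - ins k b (rm k b z - D k y)) := by
      rw [map_add, map_sub, D_ins (fun x hx => Or.inl (h.ha x hx)) hy, D_ins (fun x hx => Or.inl (h.hb x hx)) hy]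
      simp only [map_sub]
      abel
    rw [h4]
    refine Submodule.sub_mem _ h2 (Submodule.sub_mem _ (hTab.ins_mem hy') ?_)
    have := hTab.symm.ins_mem hy'
    rwa [Set.pair_comm] at this

/-- cycles of the suspension bound if the cycles one degree lower bound -/
theorem susp_hom {S : Set V} {a b : V} (h : Top2 S a b) {m : ℕ}
    (hS : ∀ z ∈ Chk k S m, D k z = 0 → ∃ y ∈ Chk k S (m + 1), D k y = z) {z : Finset V →₀ k}
    (hz : z ∈ Chk k (S ∪ {a, b}) (m + 1)) (hD : D k z = 0) : ∃ y ∈ Chk k (S ∪ {a, b}) (m + 2), D k y = z := by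
  have hz0 := p0_mem hz
  have hza := rm_mem h hz
  have hzb := rm_mem h.symm (z := z) (by rwa [Set.pair_comm])
  have hdec := decomp h hz
  have hD' : D k z = (D k (p0 k a b z) + rm k a z + rm k b z) - ins k a (D k (rm k a z)) - ins k b (D k (rm k b z)) := by
    conv_lhs => rw [hdec]
    rw [map_add, map_add, D_ins (fun x hx => Or.inl (h.ha x hx)) hza, D_ins (fun x hx => Or.inl (h.hb x hx)) hzb]
    abel
  have hq : D k (p0 k a b z) + rm k a z + rm k b z ∈ Chk k S m :=
    Submodule.add_mem _ (Submodule.add_mem _ (D_mem hz0) hza) hzb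
  have hq0 : D k (p0 k a b z) + rm k a z + rm k b z = 0 ∧ D k (rm k b z) = 0 := by
    rcases Nat.eq_zero_or_eq_succ_pred m with hm | hm
    · -- degree 0: the boundaries of chains without elements are zero
      have hD0 : ∀ w ∈ Chk k S 0, D k w = 0 := fun w hw =>
        eq_Chk (k := k) (S := S) (n := 0) (D k) 0 (fun s _ _ h3 => by
          rw [card_eq_zero.1 h3, D_single, LinearMap.zero_apply]
          simp [bdS]) hw
      rw [hm] at hza hzb
      rw [hD0 _ hza, hD0 _ hzb, map_zero, map_zero, sub_zero, sub_zero, hD] at hD'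
      exact ⟨hD'.symm, hD0 _ hzb⟩
    · obtain ⟨m', rfl⟩ : ∃ m', m = m' + 1 := ⟨_, hm⟩
      have h1 := congrArg (rm k b) hD'
      rw [hD, map_zero, map_sub, map_sub, rm_zero h.symm.na hq, rm_ins' h.symm.na h.ne.symm (D_mem hza), sub_zero,
        zero_sub, rm_ins h.symm.na (D_mem hzb)] at h1
      have h2 := congrArg (rm k a) hD'
      rw [hD, map_zero, map_sub, map_sub, rm_zero h.na hq, rm_ins' h.na h.ne (D_mem hzb), sub_zero,
        zero_sub, rm_ins h.na (D_mem hza)] at h2
      have h3 : D k (rm k b z) = 0 := by simpa using h1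
      have h4 : D k (rm k a z) = 0 := by simpa using h2
      rw [hD, h3, h4, map_zero, map_zero, sub_zero, sub_zero] at hD'
      exact ⟨hD'.symm, h3⟩
  obtain ⟨y, hy, hy'⟩ := hS _ hzb hq0.2
  refine ⟨ins k a (p0 k a b z) + (ins k a y - ins k b y), ?_, ?_⟩
  · refine Submodule.add_mem _ (h.ins_mem hz0) (Submodule.sub_mem _ (h.ins_mem hy) ?_)
    have := h.symm.ins_mem hy
    rwa [Set.pair_comm] at this
  · rw [map_add, map_sub, D_ins (fun x hx => Or.inl (h.ha x hx)) hy, D_ins (fun x hx => Or.inl (h.hb x hx)) hy,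
      D_ins (fun x hx => Or.inl (h.ha x hx)) hz0, hy']
    have h5 : rm k a z = - D k (p0 k a b z) - rm k b z := by
      rw [eq_sub_iff_add_eq, eq_neg_iff_add_eq_zero, ← hq0.1]
      abel
    conv_rhs => rw [hdec, h5]
    rw [map_sub, map_neg]
    abel

/-- cycles of the suspension in the top degree -/
theorem susp_top {S : Set V} {a b : V} (h : Top2 S a b) {m : ℕ} (hS : ∀ z ∈ Chk k S (m + 2), z = 0)
    {z : Finset V →₀ k} (hz : z ∈ Chk k (S ∪ {a, b}) (m + 2)) (hD : D k z = 0) :
    rm k a z ∈ Chk k S (m + 1) ∧ D k (rm k a z) = 0 ∧ z = ins k a (rm k a z) - ins k b (rm k a z) := by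
  have hz0 := hS _ (p0_mem hz)
  have hza := rm_mem h hz
  have hzb := rm_mem h.symm (z := z) (by rwa [Set.pair_comm])
  have hdec := decomp h hz
  rw [hz0, zero_add] at hdec
  have hD' : D k z = (rm k a z + rm k b z) - ins k a (D k (rm k a z)) - ins k b (D k (rm k b z)) := by
    conv_lhs => rw [hdec]
    rw [map_add, D_ins (fun x hx => Or.inl (h.ha x hx)) hza, D_ins (fun x hx => Or.inl (h.hb x hx)) hzb]
    abel
  have hq : rm k a z + rm k b z ∈ Chk k S (m + 1) := Submodule.add_mem _ hza hzb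
  have h2 := congrArg (rm k a) hD'
  rw [hD, map_zero, map_sub, map_sub, rm_zero h.na hq, rm_ins' h.na h.ne (D_mem hzb), sub_zero,
    zero_sub, rm_ins h.na (D_mem hza)] at h2
  have h4 : D k (rm k a z) = 0 := by simpa using h2
  have h1 := congrArg (rm k b) hD'
  rw [hD, map_zero, map_sub, map_sub, rm_zero h.symm.na hq, rm_ins' h.symm.na h.ne.symm (D_mem hza), sub_zero,
    zero_sub, rm_ins h.symm.na (D_mem hzb)] at h1
  have h3 : D k (rm k b z) = 0 := by simpa using h1
  rw [hD, h3, h4, map_zero, map_zero, sub_zero, sub_zero] at hD'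
  have h5 : rm k b z = - rm k a z := by
    rw [eq_neg_iff_add_eq_zero, add_comm]
    exact hD'.symm
  refine ⟨hza, h4, ?_⟩
  conv_lhs => rw [hdec, h5]
  rw [map_neg, sub_eq_add_neg]

/-- the suspension of a cycle -/
theorem susp_D {S : Set V} {a b : V} (h : Top2 S a b) {m : ℕ} {c : Finset V →₀ k} (hc : c ∈ Chk k S m) :
    D k (ins k a c - ins k b c) = - (ins k a (D k c) - ins k b (D k c)) := by
  rw [map_sub, D_ins (fun x hx => Or.inl (h.ha x hx)) hc, D_ins (fun x hx => Or.inl (h.hb x hx)) hc]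
  abel

end

end Pool.Agent.H2.EK
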