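import Pool.Agent.H2.EK.Rose
import Pool.Agent.H59.FS.Twr

/-!
# [H2 EK] the telescope: rank, actions, blocks
-/

set_option autoImplicit false

namespace Pool.Agent.H2.EK

open Finset Pool.Agent.H59.FS

noncomputable section

namespace Tl

open Rs

variable {B : Type} {ℓ : ℕ} {w : B → Fin ℓ → Option (B × Bool)}

open Classical in
/-- the rank -/
def rk : Tl B ℓ w → ℕ
  | c _ x => if x.IsV then 0 else 1
  | f _ x => if x.IsV then 1 else 2
  | s _ => 3

theorem rk_strictMono : StrictMono (rk : Tl B ℓ w → ℕ) := by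
  intro x y hxy
  obtain ⟨h, hne⟩ := lt_iff_le_and_ne.1 hxy
  cases x with
  | c i x =>
    cases y with
    | c j y =>
      obtain ⟨rfl, h'⟩ := cc.1 h
      have h1 : x < y := lt_of_le_of_ne h' fun e => hne (by rw [e])
      simp only [rk]
      rw [if_pos (isV_of_lt h1), if_neg (not_isV_of_lt h1)]
      exact Nat.zero_lt_one
    | f j y =>
      simp only [rk]
      by_cases hy : y.IsV
      · have hx : x.IsV := by
          rcases cf.1 h with ⟨-, h⟩ | ⟨-, h⟩
          · rw [eq_of_le h (wmap_isV _ hy)]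
            exact wmap_isV _ hy
          · rw [eq_of_le h (wmap_isV _ hy)]
            exact wmap_isV _ hy
        rw [if_pos hx, if_pos hy]
        exact Nat.zero_lt_one
      · rw [if_neg hy]
        split_ifs <;> omega
    | s a =>
      simp only [rk]
      split_ifs <;> omega
  | f i x =>
    cases y with
    | c j y => exact absurd h fc
    | f j y =>
      obtain ⟨rfl, h'⟩ := ff.1 h
      have h1 : x < y := lt_of_le_of_ne h' fun e => hne (by rw [e])
      simp only [rk]
      rw [if_pos (isV_of_lt h1), if_neg (not_isV_of_lt h1)]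
      exact Nat.one_lt_two
    | s a =>
      simp only [rk]
      split_ifs <;> omega
  | s a =>
    cases y with
    | c j y => exact absurd h sc
    | f j y => exact absurd h sf
    | s b => exact absurd (by rw [ss.1 h]) hne

theorem rk_lt (x : Tl B ℓ w) : rk x < 4 := by
  cases x <;> simp only [rk]
  · split_ifs <;> omega
  · split_ifs <;> omega
  · omega

theorem rk_ne_two {x : Tl B ℓ w} (i : ℤ) (h : x ∈ M (i - 1) ∩ M i) : rk x ≠ 2 := by
  cases x with
  | c j x =>
    simp only [rk]
    split_ifs <;> omega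
  | f j x =>
    obtain ⟨h1, h2⟩ := h
    have h1 : j = i - 1 := h1
    have h2 : j = i := h2
    omega
  | s a =>
    simp only [rk]
    omega

theorem dim : IsEmpty (Chn (Tl B ℓ w) 5) := by
  refine ⟨fun s => ?_⟩
  have h : StrictMono (fun i : Fin 5 => (⟨rk (s.1 i), rk_lt _⟩ : Fin 4)) := fun i j hij => rk_strictMono (s.2 hij)
  have := Fintype.card_le_of_injective _ h.injective
  simp at this

theorem dimW (i : ℤ) (s : Chn (Tl B ℓ w) 4) : ∃ j, s.1 j ∉ M (i - 1) ∩ M i := by
  by_contra hc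
  push Not at hc
  have h : StrictMono (fun j : Fin 4 => (⟨rk (s.1 j), rk_lt _⟩ : Fin 4)) := fun i j hij => rk_strictMono (s.2 hij)
  have h1 : Function.Surjective (fun j : Fin 4 => (⟨rk (s.1 j), rk_lt _⟩ : Fin 4)) :=
    Finite.injective_iff_surjective.1 h.injective
  obtain ⟨j, hj⟩ := h1 2
  exact rk_ne_two i (hc j) (congrArg Fin.val hj)

/-! ## shift -/

theorem sh_mono (n : ℤ) : Monotone (sh n : Tl B ℓ w → Tl B ℓ w) := by
  intro x y h
  cases x <;> cases y <;> simp only [sh]
  · obtain ⟨rfl, h'⟩ := cc.1 h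
    exact cc.2 ⟨rfl, h'⟩
  · rcases cf.1 h with ⟨rfl, h'⟩ | ⟨rfl, h'⟩
    · exact cf.2 (Or.inl ⟨rfl, h'⟩)
    · exact cf.2 (Or.inr ⟨by ring, h'⟩)
  · exact cs
  · exact absurd h fc
  · obtain ⟨rfl, h'⟩ := ff.1 h
    exact ff.2 ⟨rfl, h'⟩
  · exact fs
  · exact absurd h sc
  · exact absurd h sf
  · exact h

theorem sh_sh (n m : ℤ) (x : Tl B ℓ w) : sh n (sh m x) = sh (m + n) x := by
  cases x <;> simp only [sh, add_assoc]

theorem sh_zero (x : Tl B ℓ w) : sh 0 x = x := by
  cases x <;> simp only [sh, add_zero]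

/-- the shift -/
def tt : Tl B ℓ w ≃o Tl B ℓ w where
  toFun := sh 1
  invFun := sh (-1)
  left_inv x := by
    rw [sh_sh, add_neg_cancel, sh_zero]
  right_inv x := by
    rw [sh_sh, neg_add_cancel, sh_zero]
  map_rel_iff' := by
    intro x y
    constructor
    · intro h
      have h1 := sh_mono (-1) h
      change sh (-1) (sh 1 x) ≤ sh (-1) (sh 1 y) at h1
      rwa [sh_sh, sh_sh, add_neg_cancel, sh_zero, sh_zero] at h1
    · exact fun h => sh_mono 1 h

theorem mem_M_tt (i : ℤ) (v : Tl B ℓ w) : tt v ∈ M (i + 1) ↔ v ∈ M i := by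
  cases v with
  | c j x =>
    change (j + 1 = i + 1 ∨ j + 1 = i + 1 + 1) ↔ (j = i ∨ j = i + 1)
    omega
  | f j x =>
    change j + 1 = i + 1 ↔ j = i
    omega
  | s a => exact Iff.rfl

theorem conv (v : Tl B ℓ w) (i j l : ℤ) (hij : i ≤ j) (hjl : j ≤ l) (hi : v ∈ M i) (hl : v ∈ M l) : v ∈ M j := by
  cases v with
  | c m x =>
    have hi : m = i ∨ m = i + 1 := hi
    have hl : m = l ∨ m = l + 1 := hl
    change m = j ∨ m = j + 1
    omega
  | f m x =>
    have hi : m = i := hi
    have hl : m = l := hl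
    change m = j
    omega
  | s a => trivial

theorem cov (v u : Tl B ℓ w) (h : v ≤ u) : ∃ i, v ∈ M i ∧ u ∈ M i := by
  cases v with
  | c i x =>
    cases u with
    | c j y => exact ⟨i, Or.inl rfl, Or.inl (cc.1 h).1.symm⟩
    | f j y =>
      rcases cf.1 h with ⟨rfl, -⟩ | ⟨rfl, -⟩
      · exact ⟨i, Or.inl rfl, rfl⟩
      · exact ⟨j, Or.inr rfl, rfl⟩
    | s a => exact ⟨i, Or.inl rfl, trivial⟩
  | f i x =>
    cases u with
    | c j y => exact absurd h fc
    | f j y => exact ⟨i, rfl, (ff.1 h).1.symm⟩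
    | s a => exact ⟨i, rfl, trivial⟩
  | s a =>
    cases u with
    | c j y => exact absurd h sc
    | f j y => exact absurd h sf
    | s b => exact ⟨0, trivial, trivial⟩

theorem fin_M [Finite B] (i : ℤ) : (M i : Set (Tl B ℓ w)).Finite := by
  have h : (M i : Set (Tl B ℓ w)) ⊆ Set.range (c i) ∪ Set.range (c (i + 1)) ∪ Set.range (f i) ∪ Set.range s := by
    intro v hv
    cases v with
    | c j x =>
      rcases (show j = i ∨ j = i + 1 from hv) with rfl | rfl
      · exact Or.inl (Or.inl (Or.inl ⟨x, rfl⟩))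
      · exact Or.inl (Or.inl (Or.inr ⟨x, rfl⟩))
    | f j x =>
      obtain rfl : j = i := hv
      exact Or.inl (Or.inr ⟨x, rfl⟩)
    | s a => exact Or.inr ⟨a, rfl⟩
  exact (((((Set.finite_range _).union (Set.finite_range _)).union (Set.finite_range _))).union
    (Set.finite_range _)).subset h

instance [Countable B] : Countable (Tl B ℓ w) := by
  have hR : ∀ n, Countable (Rs B n) := fun n => by
    refine Function.Surjective.countable (α := Option ((B × {m : ℕ // 0 < m ∧ m < n}) ⊕ ((B × Fin n) ⊕ (B × Fin n × Bool))))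
      (f := fun x => match x with
        | none => pt
        | some (Sum.inl x) => jc x.1 x.2
        | some (Sum.inr (Sum.inl x)) => md x.1 x.2
        | some (Sum.inr (Sum.inr x)) => ed x.1 x.2.1 x.2.2) ?_
    rintro (_ | ⟨b, m⟩ | ⟨b, j⟩ | ⟨b, j, ε⟩)
    · exact ⟨none, rfl⟩
    · exact ⟨some (Sum.inl (b, m)), rfl⟩
    · exact ⟨some (Sum.inr (Sum.inl (b, j))), rfl⟩
    · exact ⟨some (Sum.inr (Sum.inr (b, j, ε))), rfl⟩
  have := hR 1
  have := hR ℓ
  refine Function.Surjective.countable (α := (ℤ × Rs B 1) ⊕ ((ℤ × Rs B ℓ) ⊕ Bool))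
    (f := fun x => match x with
      | Sum.inl x => c x.1 x.2
      | Sum.inr (Sum.inl x) => f x.1 x.2
      | Sum.inr (Sum.inr a) => s a) ?_
  rintro (⟨i, x⟩ | ⟨i, x⟩ | a)
  · exact ⟨Sum.inl (i, x), rfl⟩
  · exact ⟨Sum.inr (Sum.inl (i, x)), rfl⟩
  · exact ⟨Sum.inr (Sum.inr a), rfl⟩

/-! ## the action on the petals -/

theorem mpT_mono {g : B → B} (hg : ∀ b j, w (g b) j = (w b j).map (fun c => (g c.1, c.2))) :
    Monotone (mpT g : Tl B ℓ w → Tl B ℓ w) := by
  intro x y h
  cases x <;> cases y <;> simp only [mpT]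
  · obtain ⟨rfl, h'⟩ := cc.1 h
    exact cc.2 ⟨rfl, mp_mono g h'⟩
  · refine cf.2 ?_
    rcases cf.1 h with ⟨rfl, h'⟩ | ⟨rfl, h'⟩
    · refine Or.inl ⟨rfl, ?_⟩
      rw [wmap_mp _ g (fun b j => w0_mp g b j)]
      exact mp_mono g h'
    · refine Or.inr ⟨rfl, ?_⟩
      rw [wmap_mp _ g hg]
      exact mp_mono g h'
  · exact cs
  · exact absurd h fc
  · obtain ⟨rfl, h'⟩ := ff.1 h
    exact ff.2 ⟨rfl, mp_mono g h'⟩
  · exact fs
  · exact absurd h sc
  · exact absurd h sf
  · exact h

theorem mpT_mpT (g g' : B → B) (x : Tl B ℓ w) : mpT g' (mpT g x) = mpT (g' ∘ g) x := by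
  cases x <;> simp only [mpT, mp_mp]

theorem mpT_id (x : Tl B ℓ w) : mpT id x = x := by
  cases x <;> simp only [mpT, mp_id]

/-- the action of a group -/
def rho {P : Type} [Group P] [MulAction P B]
    (hw : ∀ (p : P) (b : B) (j : Fin ℓ), w (p • b) j = (w b j).map (fun c => (p • c.1, c.2))) :
    P →* (Tl B ℓ w ≃o Tl B ℓ w) where
  toFun p :=
    { toFun := mpT (fun b => p • b)
      invFun := mpT (fun b => p⁻¹ • b)
      left_inv := fun x => by
        rw [mpT_mpT]
        convert mpT_id x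
        funext b
        exact inv_smul_smul p b
      right_inv := fun x => by
        rw [mpT_mpT]
        convert mpT_id x
        funext b
        exact smul_inv_smul p b
      map_rel_iff' := by
        intro x y
        constructor
        · intro h
          have h1 := mpT_mono (w := w) (g := fun b => p⁻¹ • b) (hw p⁻¹) h
          change mpT (fun b => p⁻¹ • b) (mpT (fun b => p • b) x) ≤ mpT (fun b => p⁻¹ • b) (mpT (fun b => p • b) y) at h1
          rw [mpT_mpT, mpT_mpT] at h1
          have h2 : ((fun b => p⁻¹ • b) ∘ fun b => p • b) = (id : B → B) := by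
            funext b
            exact inv_smul_smul p b
          rwa [h2, mpT_id, mpT_id] at h1
        · exact fun h => mpT_mono (hw p) h }
  map_one' := by
    ext x
    change mpT (fun b => (1 : P) • b) x = x
    have h2 : (fun b => (1 : P) • b) = (id : B → B) := by
      funext b
      exact one_smul P b
    rw [h2, mpT_id]
  map_mul' p q := by
    ext x
    change mpT (fun b => (p * q) • b) x = mpT (fun b => p • b) (mpT (fun b => q • b) x)
    rw [mpT_mpT]
    congr 1
    funext b
    exact mul_smul p q b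

theorem mpT_mem_M (g : B → B) (i : ℤ) (v : Tl B ℓ w) : mpT g v ∈ M i ↔ v ∈ M i := by
  cases v <;> exact Iff.rfl

theorem sh_mpT (g : B → B) (n : ℤ) (v : Tl B ℓ w) : sh n (mpT g v) = mpT g (sh n v) := by
  cases v <;> rfl

end Tl

end

end Pool.Agent.H2.EK
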